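import Mathlib

/-!
MP_12469f_co: the combinatorial lemma for general `k`.  A plane is a nonempty set `v` of
generators different from `{z}`.
-/

set_option autoImplicit false

namespace Pool.Agent.H38.CF.Comb

open Finset

variable {α : Type*} [DecidableEq α]

/-- The coordinate `i` is constant for `v`. -/
def C (z : α) (v : Finset α) (i : α) : Prop := if i = z then z ∉ v else (z ∈ v ↔ i ∈ v)

/-- Additivity of planes. -/
def Add (v v' u : Finset α) : Prop := Disjoint v v' ∧ u = v ∪ v'

/-- The conditions coming from `y_u = y_v + y_v'`. -/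
structure Line (z : α) (v v' u : Finset α) : Prop where
  c1 : ∀ i, C z v i → C z v' i → C z u i
  c2 : ∀ i, C z v i → C z u i → C z v' i
  c3 : ∀ i, C z v' i → C z u i → C z v i
  add : ∀ i, C z v i → C z v' i → Add v v' u

variable {z : α} {v v' u : Finset α}

theorem Line.symm (h : Line z v v' u) : Line z v' v u where
  c1 i a b := h.c1 i b a
  c2 := h.c3
  c3 := h.c2
  add i a b := by
    obtain ⟨h1, h2⟩ := h.add i b a
    exact ⟨h1.symm, by rw [h2, union_comm]⟩

theorem Line.AA (h : Line z v v' u) (hv : z ∉ v) (hv' : z ∉ v') : Add v v' u := by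
  refine h.add z ?_ ?_
  · simpa [C] using hv
  · simpa [C] using hv'

theorem Line.BB (h : Line z v v' u) (hv : z ∈ v) (hv' : z ∈ v') {i : α} (hi : i ≠ z)
    (h1 : i ∈ v) : i ∉ v' := by
  intro h2
  obtain ⟨h3, -⟩ := h.add i (by simp [C, hi, hv, h1]) (by simp [C, hi, hv', h2])
  exact disjoint_left.mp h3 hv hv'

theorem Line.AB (h : Line z v v' u) (hv : z ∉ v) (hv' : z ∈ v') (hn : ¬ Add v v' u) :
    z ∈ u ∧ (∀ i, i ≠ z → i ∈ v' → i ∈ v) ∧ ∀ i, i ≠ z → i ∈ u → i ∈ v ∧ i ∉ v' := by
  have hu : z ∈ u := by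
    by_contra hu
    have := h.c2 z (by simpa [C] using hv) (by simpa [C] using hu)
    simp [C] at this
    exact this hv'
  refine ⟨hu, fun i hi h1 => ?_, fun i hi h1 => ?_⟩
  · by_contra h2
    exact hn (h.add i (by simp [C, hi, hv, h2]) (by simp [C, hi, hv', h1]))
  · have cu : C z u i := by simp [C, hi, hu, h1]
    have h2 : i ∈ v := by
      by_contra h2
      have cv : C z v i := by simp [C, hi, hv, h2]
      exact hn (h.add i cv (h.c2 i cv cu))
    refine ⟨h2, fun h3 => ?_⟩
    have cv := h.c3 i (by simp [C, hi, hv', h3]) cu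
    simp [C, hi, hv] at cv
    exact cv h2

/-- Pairwise disjoint families of sets have large support. -/
theorem support_card (K : Finset α → Finset α)
    (hK : ∀ σ : Finset α, σ.Nonempty → (K σ).Nonempty ∧ K σ ≠ {z})
    (hline : ∀ σ τ : Finset α, σ.Nonempty → τ.Nonempty → Disjoint σ τ →
      Line z (K σ) (K τ) (K (σ ∪ τ))) :
    ∀ (m : ℕ) (P : Finset (Finset α)), P.card = m → (∀ σ ∈ P, σ.Nonempty) →
      (∀ σ ∈ P, ∀ τ ∈ P, σ ≠ τ → Disjoint σ τ) →
      m ≤ (P.biUnion fun σ => (K σ).erase z).card := by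
  have hsupp : ∀ σ : Finset α, σ.Nonempty → ((K σ).erase z).Nonempty := by
    intro σ hσ
    obtain ⟨h1, h2⟩ := hK σ hσ
    rw [nonempty_iff_ne_empty]
    intro h3
    rcases (erase_eq_empty_iff _ _).mp h3 with h4 | h4
    · exact h1.ne_empty h4
    · exact h2 h4
  intro m
  induction m with
  | zero => intro P _ _ _; exact Nat.zero_le _
  | succ m ih =>
    intro P hP hne hdis
    by_cases hA : ∀ σ ∈ P, ∀ τ ∈ P, σ ≠ τ → Disjoint ((K σ).erase z) ((K τ).erase z)
    · rw [card_biUnion hA, ← hP, card_eq_sum_ones]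
      exact sum_le_sum fun σ hσ => card_pos.mpr (hsupp σ (hne σ hσ))
    · -- a nested pair
      have hnest : ∃ σ ∈ P, ∃ τ ∈ P, σ ≠ τ ∧ z ∉ K σ ∧ z ∈ K τ ∧
          ¬ Add (K σ) (K τ) (K (σ ∪ τ)) := by
        push Not at hA
        obtain ⟨σ, hσ, τ, hτ, hst, hnd⟩ := hA
        have hl := hline σ τ (hne σ hσ) (hne τ hτ) (hdis σ hσ τ hτ hst)
        have hnadd : ¬ Add (K σ) (K τ) (K (σ ∪ τ)) := by
          intro h
          exact hnd (h.1.mono (erase_subset _ _) (erase_subset _ _))
        by_cases h1 : z ∈ K σ <;> by_cases h2 : z ∈ K τ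
        · exfalso
          apply hnd
          rw [disjoint_left]
          intro i hi hi'
          rw [mem_erase] at hi hi'
          exact hl.BB h1 h2 hi.1 hi.2 hi'.2
        · refine ⟨τ, hτ, σ, hσ, hst.symm, h2, h1, ?_⟩
          intro h
          apply hnadd
          refine ⟨h.1.symm, ?_⟩
          rw [union_comm σ τ, h.2, union_comm]
        · exact ⟨σ, hσ, τ, hτ, hst, h1, h2, hnadd⟩
        · exact absurd (hl.AA h1 h2) hnadd
      obtain ⟨σ, hσ, τ, hτ, hst, h1, h2, hnadd⟩ := hnest
      have hdst := hdis σ hσ τ hτ hst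
      have hl := hline σ τ (hne σ hσ) (hne τ hτ) hdst
      obtain ⟨-, hAB1, hAB2⟩ := hl.AB h1 h2 hnadd
      set Q : Finset (Finset α) := (P.erase σ).erase τ with hQ
      have hQm : ∀ ρ ∈ Q, ρ ∈ P ∧ ρ ≠ σ ∧ ρ ≠ τ := by
        intro ρ hρ
        rw [hQ, mem_erase, mem_erase] at hρ
        exact ⟨hρ.2.2, hρ.2.1, hρ.1⟩
      have hnotQ : σ ∪ τ ∉ Q := by
        intro h
        obtain ⟨h3, h4, -⟩ := hQm _ h
        have h5 := hdis _ h3 σ hσ h4
        obtain ⟨i, hi⟩ := hne σ hσ
        exact disjoint_left.mp h5 (mem_union_left _ hi) hi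
      have hQc : Q.card = m - 1 := by
        rw [hQ, card_erase_of_mem (mem_erase.mpr ⟨hst.symm, hτ⟩), card_erase_of_mem hσ, hP]
        rfl
      have hPc : 2 ≤ P.card := by
        have : ({σ, τ} : Finset (Finset α)) ⊆ P := by
          intro ρ hρ
          simp only [mem_insert, mem_singleton] at hρ
          rcases hρ with rfl | rfl
          · exact hσ
          · exact hτ
        have h3 := card_le_card this
        rwa [card_pair hst] at h3
      have hih := ih (insert (σ ∪ τ) Q) (by rw [card_insert_of_notMem hnotQ, hQc]; omega)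
        (by
          intro ρ hρ
          rcases mem_insert.mp hρ with rfl | hρ
          · exact (hne σ hσ).mono subset_union_left
          · exact hne ρ (hQm ρ hρ).1)
        (by
          intro ρ hρ ρ' hρ' hne'
          rcases mem_insert.mp hρ with rfl | hρ <;> rcases mem_insert.mp hρ' with rfl | hρ'
          · exact absurd rfl hne'
          · obtain ⟨a, b, c⟩ := hQm ρ' hρ'
            rw [disjoint_union_left]
            exact ⟨hdis σ hσ ρ' a b.symm, hdis τ hτ ρ' a c.symm⟩
          · obtain ⟨a, b, c⟩ := hQm ρ hρ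
            rw [disjoint_union_right]
            exact ⟨hdis ρ a σ hσ b, hdis ρ a τ hτ c⟩
          · exact hdis ρ (hQm ρ hρ).1 ρ' (hQm ρ' hρ').1 hne')
      have hsub : ((insert (σ ∪ τ) Q).biUnion fun ρ => (K ρ).erase z) ⊆
          (P.biUnion fun ρ => (K ρ).erase z) \ (K τ).erase z := by
        intro i hi
        rw [mem_biUnion] at hi
        obtain ⟨ρ, hρ, hi⟩ := hi
        rw [mem_erase] at hi
        rw [mem_sdiff, mem_biUnion, mem_erase]
        rcases mem_insert.mp hρ with rfl | hρ
        · obtain ⟨h3, h4⟩ := hAB2 i hi.1 hi.2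
          exact ⟨⟨σ, hσ, mem_erase.mpr ⟨hi.1, h3⟩⟩, fun h => h4 h.2⟩
        · obtain ⟨a, b, c⟩ := hQm ρ hρ
          refine ⟨⟨ρ, a, mem_erase.mpr hi⟩, fun h => ?_⟩
          by_cases hz : z ∈ K ρ
          · exact (hline ρ τ (hne ρ a) (hne τ hτ) (hdis ρ a τ hτ c)).BB hz h2 hi.1 hi.2 h.2
          · have h5 := (hline ρ σ (hne ρ a) (hne σ hσ) (hdis ρ a σ hσ b)).AA hz h1
            exact disjoint_left.mp h5.1 hi.2 (hAB1 i hi.1 h.2)
      have hτsub : (K τ).erase z ⊆ P.biUnion fun ρ => (K ρ).erase z :=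
        subset_biUnion_of_mem (fun ρ => (K ρ).erase z) hτ
      have h6 := card_le_card hsub
      rw [card_sdiff_of_subset hτsub] at h6
      have h7 := card_pos.mpr (hsupp τ (hne τ hτ))
      have h8 := card_le_card hτsub
      omega

/-- There is no map `K` with these properties. -/
theorem no_map [Fintype α] (K : Finset α → Finset α)
    (hK : ∀ σ : Finset α, σ.Nonempty → (K σ).Nonempty ∧ K σ ≠ {z})
    (hline : ∀ σ τ : Finset α, σ.Nonempty → τ.Nonempty → Disjoint σ τ →
      Line z (K σ) (K τ) (K (σ ∪ τ))) : False := by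
  have h := support_card K hK hline (Fintype.card α) (univ.image fun i => ({i} : Finset α)) ?_ ?_ ?_
  · have h1 : ((univ.image fun i => ({i} : Finset α)).biUnion fun σ => (K σ).erase z) ⊆
        univ.erase z := by
      intro i hi
      rw [mem_biUnion] at hi
      obtain ⟨σ, -, hi⟩ := hi
      rw [mem_erase] at hi ⊢
      exact ⟨hi.1, mem_univ i⟩
    have h2 := card_le_card h1
    rw [card_erase_of_mem (mem_univ z), card_univ] at h2
    have h3 : 0 < Fintype.card α := Fintype.card_pos_iff.mpr ⟨z⟩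
    omega
  · rw [card_image_of_injective _ (fun i j h => by simpa using h), card_univ]
  · intro σ hσ
    obtain ⟨i, -, rfl⟩ := mem_image.mp hσ
    exact singleton_nonempty i
  · intro σ hσ τ hτ hne
    obtain ⟨i, -, rfl⟩ := mem_image.mp hσ
    obtain ⟨j, -, rfl⟩ := mem_image.mp hτ
    rw [disjoint_singleton]
    intro h
    exact hne (by rw [h])

end Pool.Agent.H38.CF.Comb
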