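import Pool.Agent.H38.CF.Digits

/-!
MP_12469f_co: base 8 uniqueness, the sets `A0` and `Ex` attached to a digit system, and their
sizes.
-/

set_option autoImplicit false

namespace Pool.Agent.H38.CF

open Finset

/-- Base 8 uniqueness. -/
theorem base8 : ∀ {k : ℕ} (a : Fin k → ℤ), (∀ g, |a g| ≤ 3) →
    (8 : ℤ) ^ k ∣ ∑ g, a g * 8 ^ (g : ℕ) → ∀ g, a g = 0 := by
  intro k
  induction k with
  | zero => intro a _ _ g; exact g.elim0
  | succ k ih =>
    intro a ha h
    rw [Fin.sum_univ_succ] at h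
    have h1 : ∑ i : Fin k, a i.succ * 8 ^ ((i.succ : Fin (k + 1)) : ℕ) =
        8 * ∑ i : Fin k, a i.succ * 8 ^ (i : ℕ) := by
      rw [mul_sum]
      refine sum_congr rfl fun i _ => ?_
      rw [Fin.val_succ, pow_succ]
      ring
    rw [h1] at h
    have h2 : (8 : ℤ) ∣ a 0 := by
      have h3 : (8 : ℤ) ∣ a 0 * 8 ^ ((0 : Fin (k + 1)) : ℕ) +
          8 * ∑ i : Fin k, a i.succ * 8 ^ (i : ℕ) :=
        (Dvd.intro_left (8 ^ k) (by ring)).trans h
      have h4 := (Int.dvd_add_left (Dvd.intro _ rfl)).mp h3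
      simpa using h4
    have h0 : a 0 = 0 := by
      have := ha 0
      rw [abs_le] at this
      omega
    rw [h0, zero_mul, zero_add, pow_succ', mul_dvd_mul_iff_left (by norm_num)] at h
    have h5 := ih (fun g => a g.succ) (fun g => ha g.succ) h
    intro g
    refine Fin.cases h0 (fun g => h5 g) g

namespace Sys

variable {n k : ℕ} (s : Sys n k)

/-- Indicator. -/
def ind (v : Finset (Fin k)) (g : Fin k) : ℤ := if g ∈ v then 1 else 0

theorem G_eq (v : Finset (Fin k)) : G v = ∑ g, ind v g * 8 ^ (g : ℕ) := by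
  simp only [G, ind, ite_mul, one_mul, zero_mul, sum_ite_mem, univ_inter]

theorem ind_cases (v : Finset (Fin k)) (g : Fin k) : ind v g = 0 ∨ ind v g = 1 := by
  unfold ind
  split_ifs <;> simp

theorem ind_add {u v v' : Finset (Fin k)} (h : (8 : ℤ) ^ k ∣ G u - (G v + G v')) (g : Fin k) :
    ind u g = ind v g + ind v' g := by
  rw [G_eq, G_eq v, G_eq v', ← sum_add_distrib, ← sum_sub_distrib] at h
  have h1 : ∀ g, ind u g * 8 ^ (g : ℕ) - (ind v g * 8 ^ (g : ℕ) + ind v' g * 8 ^ (g : ℕ)) =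
      (ind u g - (ind v g + ind v' g)) * 8 ^ (g : ℕ) := fun g => by ring
  simp only [h1] at h
  have h2 := base8 _ (fun g => ?_) h g
  · linarith
  · rw [abs_le]
    rcases ind_cases u g with h3 | h3 <;> rcases ind_cases v g with h4 | h4 <;>
      rcases ind_cases v' g with h5 | h5 <;> rw [h3, h4, h5] <;> norm_num

theorem eq_of_ind {v v' : Finset (Fin k)} (h : ∀ g, ind v g = ind v' g) : v = v' := by
  ext g
  have := h g
  unfold ind at this
  by_cases h1 : g ∈ v <;> by_cases h2 : g ∈ v' <;> simp [h1, h2] at this ⊢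

theorem eq_of_dvd {v v' : Finset (Fin k)} (h : (8 : ℤ) ^ k ∣ G v - G v') : v = v' := by
  refine eq_of_ind fun g => ?_
  have h1 : G (∅ : Finset (Fin k)) = 0 := by simp [G]
  have h2 := ind_add (u := v) (v := v') (v' := ∅) (by rw [h1, add_zero]; exact h) g
  simpa [ind] using h2

theorem not_dvd {v : Finset (Fin k)} (hv : v.Nonempty) : ¬ (8 : ℤ) ^ k ∣ G v := by
  intro h
  have h1 : G (∅ : Finset (Fin k)) = 0 := by simp [G]
  have h2 := eq_of_dvd (v := v) (v' := ∅) (by rw [h1, sub_zero]; exact h)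
  rw [h2] at hv
  simp at hv

theorem not_dvd_two {v v' : Finset (Fin k)} (hv : v.Nonempty) :
    ¬ (8 : ℤ) ^ k ∣ G v' - (G v + G v) := by
  intro h
  obtain ⟨g, hg⟩ := hv
  have h2 := ind_add h g
  have h3 : ind v g = 1 := by simp [ind, hg]
  rcases ind_cases v' g with h4 | h4 <;> rw [h3, h4] at h2 <;> norm_num at h2

/-- The main set. -/
def A0 (vx : Finset (Fin k)) (good : (ℕ → ℕ) → Prop) : Set (ZMod (2 ^ n)) :=
  {y | ∃ v : Finset (Fin k), v.Nonempty ∧ v ≠ vx ∧ ∃ t : ℕ → ℕ, s.Dig t ∧ good t ∧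
    y = ((s.ival v t : ℤ) : ZMod (2 ^ n))}

/-- The exceptional set. -/
def Ex (vx : Finset (Fin k)) (good : (ℕ → ℕ) → Prop) : Set (ZMod (2 ^ n)) :=
  {y | ∃ t : ℕ → ℕ, s.Dig t ∧ ¬ good t ∧ y = ((s.ival vx t : ℤ) : ZMod (2 ^ n))}

theorem assemble (vx : Finset (Fin k)) (hvx : ∀ i < s.L, s.D vx i = 1)
    (good : (ℕ → ℕ) → Prop) (hfree : CubeFree n k (s.A0 vx good)) :
    ∃ A : Set (ZMod (2 ^ n)), MaxCubeFree n k A ∧ A ⊆ s.A0 vx good ∪ s.Ex vx good := by
  refine exists_max _ _ hfree fun x hxE hxA hcf => ?_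
  obtain ⟨t, ht, hx⟩ := s.exists_dig (x - ((G vx * s.S : ℤ) : ZMod (2 ^ n)))
  have hval : x = ((s.ival vx t : ℤ) : ZMod (2 ^ n)) := by
    have h1 : s.ival vx t = ∑ i ∈ range s.L, (s.P i : ℤ) * t i + G vx * s.S := by
      rw [ival, add_comm]
      congr 1
      refine sum_congr rfl fun i hi => ?_
      rw [hvx i (mem_range.mp hi), one_mul]
    rw [h1, Int.cast_add, ← hx]
    ring
  have hgood : good t := by
    by_contra hb
    exact hxE ⟨t, ht, hb, hval⟩
  refine hcf (s.gen t) fun I hI => ?_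
  rw [s.sum_gen]
  by_cases hIv : I = vx
  · left
    rw [hIv, hval]
  · right
    exact ⟨I, hI, hIv, t, ht, hgood, rfl⟩

/-! ### Counting -/

theorem card_T (v : Finset (Fin k)) (T : ℕ → Finset ℕ) :
    {y : ZMod (2 ^ n) | ∃ t : ℕ → ℕ, (∀ i < s.L, t i ∈ T i) ∧
      y = ((s.ival v t : ℤ) : ZMod (2 ^ n))}.ncard ≤
      ∏ i ∈ range s.L, (if s.D v i = 0 then 1 else (T i).card) := by
  classical
  have hW : ∀ j : ℕ, ∃ W : Finset ℤ,
      W.card ≤ ∏ i ∈ range j, (if s.D v i = 0 then 1 else (T i).card) ∧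
      ∀ t : ℕ → ℕ, (∀ i < j, t i ∈ T i) → ∑ i ∈ range j, s.D v i * s.P i * t i ∈ W := by
    intro j
    induction j with
    | zero => exact ⟨{0}, by simp, by simp⟩
    | succ j ih =>
      obtain ⟨W, hW1, hW2⟩ := ih
      by_cases hD : s.D v j = 0
      · refine ⟨W, ?_, fun t ht => ?_⟩
        · rw [prod_range_succ, if_pos hD, mul_one]
          exact hW1
        · rw [sum_range_succ, hD]
          simp only [zero_mul, add_zero]
          exact hW2 t fun i hi => ht i (by omega)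
      · refine ⟨image₂ (fun (a : ℤ) (m : ℕ) => a + s.D v j * s.P j * m) W (T j), ?_,
          fun t ht => ?_⟩
        · rw [prod_range_succ, if_neg hD]
          exact (card_image₂_le _ _ _).trans (Nat.mul_le_mul_right _ hW1)
        · rw [sum_range_succ]
          exact mem_image₂_of_mem (hW2 t fun i hi => ht i (by omega)) (ht j (by omega))
  obtain ⟨W, hW1, hW2⟩ := hW s.L
  refine le_trans ?_ hW1
  have hsub : {y : ZMod (2 ^ n) | ∃ t : ℕ → ℕ, (∀ i < s.L, t i ∈ T i) ∧
      y = ((s.ival v t : ℤ) : ZMod (2 ^ n))} ⊆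
      ((W.image fun z : ℤ => ((G v * s.S + z : ℤ) : ZMod (2 ^ n)) : Finset (ZMod (2 ^ n))) :
        Set (ZMod (2 ^ n))) := by
    rintro y ⟨t, ht, rfl⟩
    rw [mem_coe, mem_image]
    exact ⟨_, hW2 t ht, rfl⟩
  calc _ ≤ _ := Set.ncard_le_ncard hsub (Set.toFinite _)
    _ = _ := Set.ncard_coe_finset _
    _ ≤ _ := card_image_le

/-- The bad digits. -/
noncomputable def badSet (B i : ℕ) : Finset ℕ := by
  classical exact (range (s.M i)).filter fun m => s.Bad B i m

theorem card_badSet (B i : ℕ) : (s.badSet B i).card ≤ 8 ^ k * (2 * B + 1) := by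
  classical
  have hE := s.E_pos i
  have hsub : s.badSet B i ⊆
      image₂ (fun a b => a * s.E i + b) (range (8 ^ k)) (range (B + 1) ∪ Ico (s.E i - B) (s.E i)) := by
    intro m hm
    simp only [badSet, mem_filter, mem_range] at hm
    obtain ⟨hm1, q, hq⟩ := hm
    have hmod : m % s.E i < s.E i := Nat.mod_lt _ hE
    have hdm : s.E i * (m / s.E i) + m % s.E i = m := Nat.div_add_mod m _
    refine mem_image₂.mpr ⟨m / s.E i, ?_, m % s.E i, ?_, by rw [mul_comm]; exact hdm⟩
    · rw [mem_range, Nat.div_lt_iff_lt_mul hE]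
      exact hm1
    · rw [mem_union, mem_range, mem_Ico]
      rw [abs_le] at hq
      have hdm' : (s.E i : ℤ) * ((m / s.E i : ℕ) : ℤ) + ((m % s.E i : ℕ) : ℤ) = m := by
        exact_mod_cast hdm
      set a : ℤ := ((m / s.E i : ℕ) : ℤ)
      set b : ℤ := ((m % s.E i : ℕ) : ℤ) with hb
      have hE' : (0 : ℤ) < s.E i := by exact_mod_cast hE
      have hb0 : 0 ≤ b := by positivity
      rcases le_or_gt 0 (a - q) with h | h
      · left
        have h1 : 0 ≤ (s.E i : ℤ) * (a - q) := mul_nonneg hE'.le h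
        have h2 : b ≤ B := by nlinarith [hq.2]
        omega
      · right
        have h1 : (s.E i : ℤ) * (a - q) ≤ -(s.E i : ℤ) := by nlinarith
        have h2 : (s.E i : ℤ) - B ≤ b := by nlinarith [hq.1]
        omega
  refine (card_le_card hsub).trans ((card_image₂_le _ _ _).trans ?_)
  rw [card_range]
  refine Nat.mul_le_mul_left _ ((card_union_le _ _).trans ?_)
  rw [card_range, Nat.card_Ico]
  omega

end Sys

end Pool.Agent.H38.CF
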