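import Mathlib

/-!
MP_12469f_co: small maximal `k`-cube-free subsets of `Z_{2^n}`.  Definitions, extension of a
cube-free set to a maximal one, and the lower bound.
-/

set_option autoImplicit false

namespace Pool.Agent.H38.CF

open Finset

/-- All non-empty subset sums of `a_1, ..., a_k` lie in `A`. -/
def CubeIn {n k : ℕ} (A : Set (ZMod (2 ^ n))) (a : Fin k → ZMod (2 ^ n)) : Prop :=
  ∀ I : Finset (Fin k), I.Nonempty → ∑ i ∈ I, a i ∈ A

/-- `A` is `k`-cube-free. -/
def CubeFree (n k : ℕ) (A : Set (ZMod (2 ^ n))) : Prop :=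
  ∀ a : Fin k → ZMod (2 ^ n), ¬ CubeIn A a

/-- `A` is maximal `k`-cube-free. -/
def MaxCubeFree (n k : ℕ) (A : Set (ZMod (2 ^ n))) : Prop :=
  CubeFree n k A ∧ ∀ x, x ∉ A → ¬ CubeFree n k (insert x A)

/-- `s(n,k)`: the least cardinality of a maximal `k`-cube-free subset of `Z_{2^n}`. -/
noncomputable def minSize (n k : ℕ) : ℕ :=
  sInf {m | ∃ A : Set (ZMod (2 ^ n)), MaxCubeFree n k A ∧ A.ncard = m}

variable {n k : ℕ}

instance : NeZero (2 ^ n) := ⟨by positivity⟩

theorem CubeIn.mono {A B : Set (ZMod (2 ^ n))} (h : A ⊆ B) {a : Fin k → ZMod (2 ^ n)}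
    (ha : CubeIn A a) : CubeIn B a := fun I hI => h (ha I hI)

theorem CubeFree.mono {A B : Set (ZMod (2 ^ n))} (h : A ⊆ B) (hB : CubeFree n k B) :
    CubeFree n k A := fun a ha => hB a (ha.mono h)

/-- Extension to a maximal cube-free set. -/
theorem exists_max (A0 E : Set (ZMod (2 ^ n))) (h0 : CubeFree n k A0)
    (h : ∀ x, x ∉ E → x ∉ A0 → ¬ CubeFree n k (insert x A0)) :
    ∃ A : Set (ZMod (2 ^ n)), MaxCubeFree n k A ∧ A ⊆ A0 ∪ E := by
  have hfin : {A : Set (ZMod (2 ^ n)) | A0 ⊆ A ∧ CubeFree n k A}.Finite := Set.toFinite _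
  obtain ⟨A, hA⟩ := hfin.exists_maximal ⟨A0, subset_rfl, h0⟩
  have hA1 : A0 ⊆ A ∧ CubeFree n k A := hA.prop
  refine ⟨A, ⟨hA1.2, fun x hx hfree => ?_⟩, fun x hx => ?_⟩
  · have hmem : insert x A ∈ {A : Set (ZMod (2 ^ n)) | A0 ⊆ A ∧ CubeFree n k A} :=
      ⟨hA1.1.trans (Set.subset_insert x A), hfree⟩
    have := hA.le_of_ge hmem (Set.subset_insert x A)
    exact hx (this (Set.mem_insert x A))
  · by_contra hnot
    have h1 : x ∉ A0 := fun hh => hnot (Or.inl hh)
    have h2 : x ∉ E := fun hh => hnot (Or.inr hh)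
    refine h x h2 h1 (hA1.2.mono ?_)
    exact Set.insert_subset hx hA1.1

theorem exists_maxCubeFree (n k : ℕ) (hk : 1 ≤ k) :
    ∃ A : Set (ZMod (2 ^ n)), MaxCubeFree n k A := by
  have h0 : CubeFree n k (∅ : Set (ZMod (2 ^ n))) := by
    intro a ha
    exact ha {⟨0, hk⟩} (singleton_nonempty _)
  obtain ⟨A, hA, -⟩ := exists_max (n := n) (k := k) ∅ Set.univ h0
    (fun x hx => absurd (Set.mem_univ x) hx)
  exact ⟨A, hA⟩

theorem exists_minSize (n k : ℕ) (hk : 1 ≤ k) :
    ∃ A : Set (ZMod (2 ^ n)), MaxCubeFree n k A ∧ A.ncard = minSize n k := by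
  obtain ⟨A, hA⟩ := exists_maxCubeFree n k hk
  exact Nat.sInf_mem (s := {m | ∃ A : Set (ZMod (2 ^ n)), MaxCubeFree n k A ∧ A.ncard = m})
    ⟨A.ncard, A, hA, rfl⟩

theorem minSize_le {A : Set (ZMod (2 ^ n))} (hA : MaxCubeFree n k A) :
    minSize n k ≤ A.ncard :=
  Nat.sInf_le ⟨A, hA, rfl⟩

/-! ### The lower bound -/

theorem zero_notMem {A : Set (ZMod (2 ^ n))} (hA : CubeFree n k A) : (0 : ZMod (2 ^ n)) ∉ A := by
  intro h0
  refine hA (fun _ => 0) fun I _ => ?_
  simpa using h0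

/-- Every element outside a maximal cube-free set is a sum or a difference of two elements, or
half of an element, or zero. -/
theorem outside {A : Set (ZMod (2 ^ n))} (hk : 2 ≤ k) (hA : MaxCubeFree n k A)
    (x : ZMod (2 ^ n)) (hx : x ∉ A) :
    x = 0 ∨ x + x ∈ A ∨ (∃ a ∈ A, ∃ b ∈ A, x = a + b) ∨ (∃ a ∈ A, ∃ b ∈ A, x = a - b) := by
  classical
  have h0 := zero_notMem hA.1
  obtain ⟨a, ha⟩ := not_forall_not.mp (hA.2 x hx)
  by_contra hcon
  push Not at hcon
  obtain ⟨hx0, hxx, hadd, hsub⟩ := hcon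
  have hmem : ∀ I : Finset (Fin k), I.Nonempty → ∑ i ∈ I, a i = x ∨ ∑ i ∈ I, a i ∈ A :=
    fun I hI => ha I hI
  -- a nonempty set with sum `x`
  have hI : ∃ I : Finset (Fin k), I.Nonempty ∧ ∑ i ∈ I, a i = x := by
    by_contra hno
    push Not at hno
    exact hA.1 a fun I hI => (hmem I hI).resolve_left (hno I hI)
  have hex : ∃ I : Finset (Fin k), (I.Nonempty ∧ ∑ i ∈ I, a i = x) ∧
      ∀ J : Finset (Fin k), J.Nonempty ∧ ∑ i ∈ J, a i = x → I.card ≤ J.card := by
    obtain ⟨I, hI⟩ := hI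
    have := Finset.exists_min_image (univ.filter fun J : Finset (Fin k) =>
      J.Nonempty ∧ ∑ i ∈ J, a i = x) Finset.card ⟨I, by simpa using hI⟩
    obtain ⟨I', h1, h2⟩ := this
    exact ⟨I', by simpa using h1, fun J hJ => h2 J (by simpa using hJ)⟩
  obtain ⟨I, ⟨⟨i, hi⟩, hIx⟩, hmin⟩ := hex
  by_cases hcard : I = {i}
  · -- a generator equal to `x`
    have hai : a i = x := by rw [← hIx, hcard, sum_singleton]
    obtain ⟨j, hj⟩ : ∃ j : Fin k, j ≠ i := by
      have : Nontrivial (Fin k) := Fin.nontrivial_iff_two_le.mpr hk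
      exact exists_ne i
    have h1 := hmem {j} (singleton_nonempty _)
    have h2 := hmem {i, j} (insert_nonempty _ _)
    rw [sum_singleton] at h1
    rw [sum_pair (Ne.symm hj), hai] at h2
    rcases h1 with h1 | h1
    · rw [h1] at h2
      rcases h2 with h2 | h2
      · exact hx0 (by simpa using h2)
      · exact hxx h2
    · rcases h2 with h2 | h2
      · have : a j = 0 := by simpa using h2
        rw [this] at h1
        exact h0 h1
      · exact hsub _ h2 _ h1 (by ring)
  · -- split off one element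
    have hne : (I.erase i).Nonempty := by
      rw [nonempty_iff_ne_empty]
      intro h
      apply hcard
      rw [← insert_erase hi, h]
      rfl
    have h1 := hmem {i} (singleton_nonempty _)
    have h2 := hmem (I.erase i) hne
    rw [sum_singleton] at h1
    have hsum : a i + ∑ j ∈ I.erase i, a j = x := by rw [add_sum_erase _ _ hi, hIx]
    have hlt : (I.erase i).card < I.card := card_erase_lt_of_mem hi
    have h3 : ∑ j ∈ I.erase i, a j ∈ A := by
      rcases h2 with h2 | h2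
      · exact absurd (hmin _ ⟨hne, h2⟩) (by omega)
      · exact h2
    rcases h1 with h1 | h1
    · have : ∑ j ∈ I.erase i, a j = 0 := by
        have := hsum; rw [h1] at this; simpa using this
      rw [this] at h3
      exact h0 h3
    · exact hadd _ h1 _ h3 hsum.symm

theorem card_half (A : Set (ZMod (2 ^ n))) :
    {x : ZMod (2 ^ n) | x + x ∈ A}.ncard ≤ 2 * A.ncard := by
  classical
  -- fibres of doubling have at most two elements
  have hker : ∀ x y : ZMod (2 ^ n), x + x = y + y → x = y ∨ x = y + ((2 ^ (n - 1) : ℕ) : ZMod (2 ^ n)) := by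
    intro x y hxy
    rcases Nat.eq_zero_or_pos n with hn | hn
    · subst hn
      left
      exact Subsingleton.elim (α := ZMod 1) _ _
    · have h1 : (x - y) + (x - y) = 0 := by
        have : (x - y) + (x - y) = (x + x) - (y + y) := by ring
        rw [this, hxy, sub_self]
      set d := x - y with hd
      have h2 : ((d.val + d.val : ℕ) : ZMod (2 ^ n)) = 0 := by
        push_cast
        rw [ZMod.natCast_zmod_val]
        exact h1
      rw [ZMod.natCast_eq_zero_iff] at h2
      have h3 : d.val < 2 ^ n := ZMod.val_lt d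
      have h4 : 2 ^ n = 2 * 2 ^ (n - 1) := by
        rw [← pow_succ']; congr 1; omega
      obtain ⟨c, hc⟩ := h2
      have hc2 : c = 0 ∨ c = 1 := by
        have : c < 2 := by
          by_contra hge
          push Not at hge
          have : 2 ^ n * 2 ≤ 2 ^ n * c := Nat.mul_le_mul_left _ hge
          omega
        omega
      rcases hc2 with hc2 | hc2
      · left
        have : d.val = 0 := by rw [hc2] at hc; omega
        have hd0 : d = 0 := (ZMod.val_eq_zero d).mp this
        rw [hd] at hd0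
        exact sub_eq_zero.mp hd0
      · right
        have h5 : d.val = 2 ^ (n - 1) := by rw [hc2] at hc; omega
        have h6 : d = ((2 ^ (n - 1) : ℕ) : ZMod (2 ^ n)) := by
          rw [← h5, ZMod.natCast_zmod_val]
        rw [← h6, hd]; ring
  -- choose a half
  set H : Set (ZMod (2 ^ n)) := {x : ZMod (2 ^ n) | x + x ∈ A}
  let f : ZMod (2 ^ n) → ZMod (2 ^ n) := fun a =>
    if h : ∃ y, y + y = a then h.choose else 0
  have hf : ∀ x : ZMod (2 ^ n), f (x + x) + f (x + x) = x + x := by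
    intro x
    have h : ∃ y, y + y = x + x := ⟨x, rfl⟩
    simp only [f]
    rw [dif_pos h]
    exact h.choose_spec
  have hsub : H ⊆ f '' A ∪ (fun a => f a + ((2 ^ (n - 1) : ℕ) : ZMod (2 ^ n))) '' A := by
    intro x hx
    rcases hker x (f (x + x)) (hf x).symm with h | h
    · left; exact ⟨x + x, hx, h.symm⟩
    · right; exact ⟨x + x, hx, h.symm⟩
  calc H.ncard ≤ (f '' A ∪ (fun a => f a + ((2 ^ (n - 1) : ℕ) : ZMod (2 ^ n))) '' A).ncard :=
        Set.ncard_le_ncard hsub (Set.toFinite _)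
    _ ≤ (f '' A).ncard + ((fun a => f a + ((2 ^ (n - 1) : ℕ) : ZMod (2 ^ n))) '' A).ncard :=
        Set.ncard_union_le _ _
    _ ≤ A.ncard + A.ncard :=
        Nat.add_le_add (Set.ncard_image_le (Set.toFinite A)) (Set.ncard_image_le (Set.toFinite A))
    _ = 2 * A.ncard := by ring

/-- Lower bound: `2^n ≤ 2 |A|^2 + 3 |A| + 1`. -/
theorem lower {A : Set (ZMod (2 ^ n))} (hk : 2 ≤ k) (hA : MaxCubeFree n k A) :
    2 ^ n ≤ 2 * A.ncard ^ 2 + 3 * A.ncard + 1 := by
  classical
  have hcov : (Set.univ : Set (ZMod (2 ^ n))) ⊆ A ∪ {0} ∪ {x | x + x ∈ A} ∪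
      Set.image2 (fun a b => a + b) A A ∪ Set.image2 (fun a b => a - b) A A := by
    intro x _
    by_cases hx : x ∈ A
    · simp [hx]
    · rcases outside hk hA x hx with h | h | ⟨a, ha, b, hb, h⟩ | ⟨a, ha, b, hb, h⟩
      · simp [h]
      · simp [h]
      · exact Or.inl (Or.inr ⟨a, ha, b, hb, h.symm⟩)
      · exact Or.inr ⟨a, ha, b, hb, h.symm⟩
  have hcard : (Set.univ : Set (ZMod (2 ^ n))).ncard = 2 ^ n := by
    rw [Set.ncard_univ, Nat.card_eq_fintype_card, ZMod.card]
  have himg : ∀ f : ZMod (2 ^ n) → ZMod (2 ^ n) → ZMod (2 ^ n),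
      (Set.image2 f A A).ncard ≤ A.ncard ^ 2 := by
    intro f
    rw [← Set.image_prod]
    calc _ ≤ (A ×ˢ A).ncard := Set.ncard_image_le (Set.toFinite _)
      _ = A.ncard ^ 2 := by rw [Set.ncard_prod]; ring
  have h1 := Set.ncard_le_ncard hcov (Set.toFinite _)
  rw [hcard] at h1
  have h2 := Set.ncard_union_le (A ∪ {0} ∪ {x | x + x ∈ A} ∪
      Set.image2 (fun a b => a + b) A A) (Set.image2 (fun a b => a - b) A A)
  have h3 := Set.ncard_union_le (A ∪ {0} ∪ {x | x + x ∈ A}) (Set.image2 (fun a b => a + b) A A)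
  have h4 := Set.ncard_union_le (A ∪ {0}) {x : ZMod (2 ^ n) | x + x ∈ A}
  have h5 := Set.ncard_union_le A {(0 : ZMod (2 ^ n))}
  have h6 := himg (fun a b => a + b)
  have h7 := himg (fun a b => a - b)
  have h8 := card_half A
  rw [Set.ncard_singleton] at h5
  omega

end Pool.Agent.H38.CF
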