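import Pool.Agent.H38.CF.Defs

/-!
MP_12469f_co: digit systems.  Every residue has digits `t_i` (`i < L`) with mixed base
`M_i = 8^k E_i`.  For a nonempty set `v` of generators the value is
`G(v) S + sum_i D(v,i) P_i t_i`, where `D(v,i)` is `-1`, `0` or `1`.  At a coordinate `i` with
`D(v,i) = 0` the `i`-th digit of the value is close to the constant `G(v) E_i`.
-/

set_option autoImplicit false

namespace Pool.Agent.H38.CF

open Finset

/-- A digit system. -/
structure Sys (n k : ℕ) where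
  L : ℕ
  E : ℕ → ℕ
  w : Fin k → ℕ → ℤ
  hk : 1 ≤ k
  E_pos : ∀ i, 0 < E i
  prod : ∏ j ∈ range L, (8 ^ k * E j) = 2 ^ n
  hw : ∀ (v : Finset (Fin k)) (i : ℕ), |∑ g ∈ v, w g i| ≤ 1

namespace Sys

variable {n k : ℕ} (s : Sys n k)

def M (i : ℕ) : ℕ := 8 ^ k * s.E i

def P (i : ℕ) : ℕ := ∏ j ∈ range i, s.M j

def R (i : ℕ) : ℤ := s.P i * s.E i

def S : ℤ := ∑ l ∈ range s.L, s.R l

def G (v : Finset (Fin k)) : ℤ := ∑ g ∈ v, 8 ^ (g : ℕ)

def D (v : Finset (Fin k)) (i : ℕ) : ℤ := ∑ g ∈ v, s.w g i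

def gen (t : ℕ → ℕ) (g : Fin k) : ZMod (2 ^ n) :=
  ((8 ^ (g : ℕ) * s.S + ∑ i ∈ range s.L, s.w g i * s.P i * t i : ℤ) : ZMod (2 ^ n))

def ival (v : Finset (Fin k)) (t : ℕ → ℕ) : ℤ :=
  G v * s.S + ∑ i ∈ range s.L, s.D v i * s.P i * t i

/-- Digit tuples. -/
def Dig (t : ℕ → ℕ) : Prop := ∀ i < s.L, t i < s.M i

/-- `y` is determined at the coordinate `i`, with constant `c` and error `e`. -/
def Det (i : ℕ) (y : ZMod (2 ^ n)) (c e : ℤ) : Prop :=
  ∃ z r : ℤ, y = ((c * s.R i + z * s.P (i + 1) + r : ℤ) : ZMod (2 ^ n)) ∧ |r| ≤ e * s.P i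

theorem M_pos (i : ℕ) : 0 < s.M i := Nat.mul_pos (by positivity) (s.E_pos i)

theorem P_pos (i : ℕ) : 0 < s.P i := prod_pos fun j _ => s.M_pos j

theorem P_succ (i : ℕ) : s.P (i + 1) = s.P i * s.M i := prod_range_succ _ _

theorem P_L : s.P s.L = 2 ^ n := s.prod

theorem P_succ_R (i : ℕ) : (s.P (i + 1) : ℤ) = 8 ^ k * s.R i := by
  rw [P_succ]
  simp only [M, R]
  push_cast
  ring

theorem R_pos (i : ℕ) : 0 < s.R i := by
  have h1 := s.P_pos i
  have h2 := s.E_pos i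
  simp only [R]
  positivity

theorem P_dvd {i j : ℕ} (h : i ≤ j) : s.P i ∣ s.P j :=
  prod_dvd_prod_of_subset _ _ _ (range_subset_range.mpr h)

theorem G_nonneg (v : Finset (Fin k)) : 0 ≤ G v := sum_nonneg fun g _ => by positivity

theorem G_le (v : Finset (Fin k)) : 7 * G v < 8 ^ k := by
  have h1 : G v ≤ G (univ : Finset (Fin k)) :=
    sum_le_sum_of_subset_of_nonneg (subset_univ v) fun g _ _ => by positivity
  have h2 : ∀ m : ℕ, 7 * ∑ j ∈ range m, (8 : ℤ) ^ j < 8 ^ m := by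
    intro m
    induction m with
    | zero => simp
    | succ m ih =>
      rw [sum_range_succ, pow_succ]
      linarith
  have h3 : G (univ : Finset (Fin k)) = ∑ j ∈ range k, (8 : ℤ) ^ j := by
    rw [G, ← Fin.sum_univ_eq_sum_range]
  have := h2 k
  rw [← h3] at this
  linarith

theorem sum_gen (t : ℕ → ℕ) (v : Finset (Fin k)) :
    ∑ g ∈ v, s.gen t g = ((s.ival v t : ℤ) : ZMod (2 ^ n)) := by
  simp only [gen, ival]
  rw [← Int.cast_sum]
  congr 1
  rw [sum_add_distrib, sum_comm, G, sum_mul]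
  congr 1
  refine sum_congr rfl fun i _ => ?_
  rw [D, sum_mul, sum_mul]

/-- Every residue has digits. -/
theorem exists_dig (x : ZMod (2 ^ n)) :
    ∃ t : ℕ → ℕ, s.Dig t ∧
      x = ((∑ i ∈ range s.L, (s.P i : ℤ) * t i : ℤ) : ZMod (2 ^ n)) := by
  refine ⟨fun i => x.val / s.P i % s.M i, fun i _ => Nat.mod_lt _ (s.M_pos i), ?_⟩
  have h : ∀ j : ℕ, ∑ i ∈ range j, s.P i * (x.val / s.P i % s.M i) = x.val % s.P j := by
    intro j
    induction j with
    | zero => simp [P, Nat.mod_one]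
    | succ j ih => rw [sum_range_succ, ih, P_succ, Nat.mod_mul]
  have h2 := h s.L
  rw [s.P_L, Nat.mod_eq_of_lt (ZMod.val_lt x)] at h2
  have h3 : (∑ i ∈ range s.L, (s.P i : ℤ) * ((x.val / s.P i % s.M i : ℕ) : ℤ)) = (x.val : ℤ) := by
    have h4 := congrArg (fun m : ℕ => (m : ℤ)) h2
    push_cast at h4 ⊢
    exact h4
  rw [h3]
  simp

/-- The digits of a value at the coordinate `i`. -/
theorem ival_digit (v : Finset (Fin k)) {t : ℕ → ℕ} (ht : s.Dig t) {i : ℕ} (hi : i < s.L) :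
    ∃ z r : ℤ, s.ival v t = G v * s.R i + s.D v i * s.P i * t i + z * s.P (i + 1) + r ∧
      |r| ≤ 3 * s.P i := by
  -- the upper part
  have hup : ∃ z : ℤ, G v * ∑ l ∈ Ico (i + 1) s.L, s.R l +
      ∑ l ∈ Ico (i + 1) s.L, s.D v l * s.P l * t l = z * s.P (i + 1) := by
    have hd : ((s.P (i + 1) : ℕ) : ℤ) ∣ G v * ∑ l ∈ Ico (i + 1) s.L, s.R l +
        ∑ l ∈ Ico (i + 1) s.L, s.D v l * s.P l * t l := by
      refine dvd_add (Dvd.dvd.mul_left (dvd_sum fun l hl => ?_) _) (dvd_sum fun l hl => ?_)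
      · have hPl : ((s.P (i + 1) : ℕ) : ℤ) ∣ ((s.P l : ℕ) : ℤ) :=
          Int.natCast_dvd_natCast.mpr (s.P_dvd (mem_Ico.mp hl).1)
        exact Dvd.dvd.mul_right hPl _
      · have hPl : ((s.P (i + 1) : ℕ) : ℤ) ∣ ((s.P l : ℕ) : ℤ) :=
          Int.natCast_dvd_natCast.mpr (s.P_dvd (mem_Ico.mp hl).1)
        exact Dvd.dvd.mul_right (Dvd.dvd.mul_left hPl _) _
    obtain ⟨z, hz⟩ := hd
    exact ⟨z, by rw [hz]; ring⟩
  obtain ⟨z, hz⟩ := hup
  -- the lower part
  have hlow1 : ∀ j : ℕ, 0 ≤ ∑ l ∈ range j, s.R l ∧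
      8 ^ k * ∑ l ∈ range j, s.R l ≤ 2 * s.P j := by
    intro j
    induction j with
    | zero => exact ⟨by simp, by simp⟩
    | succ j ih =>
      obtain ⟨ih1, ih2⟩ := ih
      have hR := s.R_pos j
      refine ⟨by rw [sum_range_succ]; linarith, ?_⟩
      rw [sum_range_succ, mul_add, ← P_succ_R]
      have h8 : (s.P (j + 1) : ℤ) ≥ 2 * s.P j := by
        have h9 : 2 ≤ s.M j := by
          have h10 : 8 ^ 1 ≤ 8 ^ k := Nat.pow_le_pow_right (by norm_num) s.hk
          have h11 := s.E_pos j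
          have h12 : 8 ^ 1 * 1 ≤ 8 ^ k * s.E j := Nat.mul_le_mul h10 h11
          simp only [M]
          omega
        rw [P_succ]
        have := Nat.mul_le_mul_left (s.P j) h9
        zify at this
        push_cast
        linarith
      linarith
  have hlow2 : ∀ j : ℕ, j ≤ s.L → |∑ l ∈ range j, s.D v l * s.P l * t l| ≤ s.P j - 1 := by
    intro j
    induction j with
    | zero => intro _; simp [P]
    | succ j ih =>
      intro hj
      have ih' := ih (by omega)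
      rw [sum_range_succ]
      have h1 : |s.D v j * s.P j * t j| ≤ s.P j * (s.M j - 1) := by
        rw [abs_mul, abs_mul, Nat.abs_cast, Nat.abs_cast]
        have hD : |s.D v j| ≤ 1 := s.hw v j
        have htj : (t j : ℤ) ≤ s.M j - 1 := by
          have := ht j (by omega)
          omega
        have hP : (0 : ℤ) ≤ s.P j := by positivity
        calc |s.D v j| * s.P j * t j ≤ 1 * s.P j * t j := by gcongr
          _ ≤ 1 * s.P j * (s.M j - 1) := by gcongr
          _ = s.P j * (s.M j - 1) := by ring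
      have h2 := abs_add_le (∑ l ∈ range j, s.D v l * s.P l * t l) (s.D v j * s.P j * t j)
      have h3 : (s.P (j + 1) : ℤ) = s.P j * s.M j := by rw [P_succ]; push_cast; ring
      rw [h3]
      linarith
  refine ⟨z, G v * ∑ l ∈ range i, s.R l + ∑ l ∈ range i, s.D v l * s.P l * t l, ?_, ?_⟩
  · have hsplit : ∀ f : ℕ → ℤ, ∑ l ∈ range s.L, f l =
        ∑ l ∈ range i, f l + f i + ∑ l ∈ Ico (i + 1) s.L, f l := by
      intro f
      rw [← sum_range_succ, ← sum_range_add_sum_Ico f (by omega : i + 1 ≤ s.L)]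
    rw [ival, S, hsplit, hsplit, ← hz]
    ring
  · obtain ⟨h1, h2⟩ := hlow1 i
    have h3 := hlow2 i hi.le
    have hG := G_nonneg v
    have hG2 := G_le v
    have h4 : |G v * ∑ l ∈ range i, s.R l| ≤ 2 * s.P i := by
      rw [abs_of_nonneg (mul_nonneg hG h1)]
      have : G v ≤ 8 ^ k := by linarith
      calc G v * ∑ l ∈ range i, s.R l ≤ 8 ^ k * ∑ l ∈ range i, s.R l := by gcongr
        _ ≤ _ := h2
    have h5 := abs_add_le (G v * ∑ l ∈ range i, s.R l) (∑ l ∈ range i, s.D v l * s.P l * t l)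
    linarith

/-! ### The rules for determined coordinates -/

theorem Det.mono {i : ℕ} {y : ZMod (2 ^ n)} {c e e' : ℤ} (h : s.Det i y c e) (he : e ≤ e') :
    s.Det i y c e' := by
  obtain ⟨z, r, h1, h2⟩ := h
  refine ⟨z, r, h1, h2.trans ?_⟩
  gcongr

theorem Det.add {i : ℕ} {y y' : ZMod (2 ^ n)} {c c' e e' : ℤ} (h : s.Det i y c e)
    (h' : s.Det i y' c' e') : s.Det i (y + y') (c + c') (e + e') := by
  obtain ⟨z, r, h1, h2⟩ := h
  obtain ⟨z', r', h1', h2'⟩ := h'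
  refine ⟨z + z', r + r', ?_, ?_⟩
  · rw [h1, h1', ← Int.cast_add]
    congr 1
    ring
  · have := abs_add_le r r'
    linarith

theorem Det.sub {i : ℕ} {y y' : ZMod (2 ^ n)} {c c' e e' : ℤ} (h : s.Det i y c e)
    (h' : s.Det i y' c' e') : s.Det i (y - y') (c - c') (e + e') := by
  obtain ⟨z, r, h1, h2⟩ := h
  obtain ⟨z', r', h1', h2'⟩ := h'
  refine ⟨z - z', r - r', ?_, ?_⟩
  · rw [h1, h1', ← Int.cast_sub]
    congr 1
    ring
  · have := abs_sub r r'
    linarith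

/-- Equality of residues modulo `P (i + 1)`. -/
theorem cast_eq {i : ℕ} (hi : i < s.L) {a b : ℤ}
    (h : ((a : ℤ) : ZMod (2 ^ n)) = ((b : ℤ) : ZMod (2 ^ n))) :
    ∃ z : ℤ, a = b + z * s.P (i + 1) := by
  rw [ZMod.intCast_eq_intCast_iff_dvd_sub] at h
  have h1 : ((s.P (i + 1) : ℕ) : ℤ) ∣ ((2 ^ n : ℕ) : ℤ) := by
    rw [← s.P_L]
    exact Int.natCast_dvd_natCast.mpr (s.P_dvd hi)
  obtain ⟨z, hz⟩ := h1.trans h
  exact ⟨-z, by linarith⟩

/-- A determined coordinate has one constant modulo `8^k`. -/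
theorem Det.unique {i : ℕ} (hi : i < s.L) {y : ZMod (2 ^ n)} {c c' e e' : ℤ}
    (h : s.Det i y c e) (h' : s.Det i y c' e') (he : e + e' < s.E i) : (8 : ℤ) ^ k ∣ c - c' := by
  obtain ⟨z, r, h1, h2⟩ := h
  obtain ⟨z', r', h1', h2'⟩ := h'
  rw [h1] at h1'
  obtain ⟨q, hq⟩ := s.cast_eq hi h1'
  rw [P_succ_R] at hq
  have hR := s.R_pos i
  have hP : (0 : ℤ) < s.P i := by exact_mod_cast s.P_pos i
  have h3 : r - r' = s.R i * (c' - c + (z' - z + q) * 8 ^ k) := by linarith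
  have h4 : |r - r'| < s.R i := by
    have h5 := abs_sub r r'
    have h6 : (e + e') * s.P i < s.E i * s.P i := by gcongr
    have h7 : s.R i = s.E i * s.P i := by rw [R]; ring
    rw [h7]
    linarith
  have h8 : c' - c + (z' - z + q) * 8 ^ k = 0 := by
    by_contra hne
    have h9 : 1 ≤ |c' - c + (z' - z + q) * 8 ^ k| := Int.one_le_abs hne
    rw [h3, abs_mul, abs_of_pos hR] at h4
    nlinarith
  exact ⟨z' - z + q, by linarith⟩

/-- Constant coordinates are determined. -/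
theorem det_const {v : Finset (Fin k)} {t : ℕ → ℕ} (ht : s.Dig t) {i : ℕ} (hi : i < s.L)
    (hD : s.D v i = 0) : s.Det i ((s.ival v t : ℤ) : ZMod (2 ^ n)) (G v) 3 := by
  obtain ⟨z, r, h1, h2⟩ := s.ival_digit v ht hi
  rw [hD] at h1
  exact ⟨z, r, by rw [h1]; congr 1; ring, h2⟩

/-- A digit is bad if it is close to a multiple of `E_i`. -/
def Bad (B : ℤ) (i : ℕ) (m : ℕ) : Prop := ∃ q : ℤ, |(m : ℤ) - q * s.E i| ≤ B

/-- Free coordinates with a good digit are not determined. -/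
theorem bad_of_det {v : Finset (Fin k)} {t : ℕ → ℕ} (ht : s.Dig t) {i : ℕ} (hi : i < s.L)
    (hD : s.D v i ≠ 0) {c e : ℤ} (h : s.Det i ((s.ival v t : ℤ) : ZMod (2 ^ n)) c e) :
    s.Bad (e + 3) i (t i) := by
  obtain ⟨z, r, h1, h2⟩ := s.ival_digit v ht hi
  obtain ⟨z', r', h1', h2'⟩ := h
  obtain ⟨q, hq⟩ := s.cast_eq hi h1'
  rw [h1] at hq
  have hP : (0 : ℤ) < s.P i := by exact_mod_cast s.P_pos i
  have hD1 : s.D v i = 1 ∨ s.D v i = -1 := by
    have h3 : |s.D v i| ≤ 1 := s.hw v i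
    rw [abs_le] at h3
    omega
  -- `P i * (D t - (c - G) E - (z' - z + q) 8^k E) = r' - r`
  have key : ∀ m : ℤ, (s.P i : ℤ) * (s.D v i * t i - m * s.E i) = r' - r →
      |s.D v i * t i - m * s.E i| ≤ e + 3 := by
    intro m hm
    have h3 : (s.P i : ℤ) * |s.D v i * t i - m * s.E i| ≤ s.P i * (e + 3) := by
      rw [← abs_of_pos hP, ← abs_mul, abs_of_pos hP, hm]
      have := abs_sub r' r
      linarith
    exact le_of_mul_le_mul_left h3 hP
  have h5 : (s.P i : ℤ) * (s.D v i * t i - (c - G v + (z' - z + q) * 8 ^ k) * s.E i) = r' - r := by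
    rw [P_succ_R] at hq
    simp only [R] at hq
    linear_combination hq
  have h6 := key _ h5
  rcases hD1 with hD1 | hD1
  · rw [hD1, one_mul] at h6
    exact ⟨_, h6⟩
  · rw [hD1] at h6
    refine ⟨-(c - G v + (z' - z + q) * 8 ^ k), ?_⟩
    rw [← abs_neg]
    convert h6 using 2
    ring

/-- Additivity of the constants. -/
theorem G_add {u v v' : Finset (Fin k)} (h : (8 : ℤ) ^ k ∣ G u - (G v + G v')) :
    G u = G v + G v' := by
  have h1 := G_nonneg u
  have h2 := G_le u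
  have h3 := G_nonneg v
  have h4 := G_le v
  have h5 := G_nonneg v'
  have h6 := G_le v'
  have h7 : |G u - (G v + G v')| < 8 ^ k := by
    rw [abs_lt]
    constructor <;> linarith
  have := Int.eq_zero_of_abs_lt_dvd h h7
  linarith

end Sys

end Pool.Agent.H38.CF
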