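import Pool.Agent.H38.CF.ThreeB
import Pool.Agent.H38.CF.Comb

/-!
MP_12469f_co: the design for general `k`, with `k` coordinates.  The generator `z = 0` is `x` up
to a constant; the generator `i` is minus the `i`-th digit of `x`.
-/

set_option autoImplicit false

namespace Pool.Agent.H38.CF

open Finset

namespace General

variable {k : ℕ}

/-- The weights. -/
def w (g : Fin k) (i : ℕ) : ℤ := if (g : ℕ) = 0 then 1 else if (g : ℕ) = i then -1 else 0

theorem D_eq (hk : 0 < k) (v : Finset (Fin k)) (i : Fin k) :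
    ∑ g ∈ v, w g i = (if (⟨0, hk⟩ : Fin k) ∈ v then 1 else 0) -
      (if i ≠ ⟨0, hk⟩ ∧ i ∈ v then 1 else 0) := by
  have h1 : ∀ g : Fin k, w g i = (if g = ⟨0, hk⟩ then 1 else 0) -
      (if i ≠ ⟨0, hk⟩ ∧ g = i then 1 else 0) := by
    intro g
    unfold w
    by_cases hg : (g : ℕ) = 0
    · have hg' : g = ⟨0, hk⟩ := Fin.ext hg
      rw [if_pos hg, if_pos hg', if_neg]
      · norm_num
      · rintro ⟨h2, h3⟩
        exact h2 (h3 ▸ hg')
    · have hg' : g ≠ ⟨0, hk⟩ := fun h => hg (by rw [h])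
      rw [if_neg hg, if_neg hg']
      by_cases hgi : g = i
      · rw [if_pos (by rw [hgi]), if_pos ⟨hgi ▸ hg', hgi⟩]
        norm_num
      · rw [if_neg (fun h => hgi (Fin.ext h)), if_neg (fun h => hgi h.2)]
        norm_num
  simp only [h1]
  rw [sum_sub_distrib, sum_ite_eq']
  congr 1
  by_cases hi : i = ⟨0, hk⟩
  · simp [hi]
  · simp only [ne_eq, hi, not_false_eq_true, true_and]
    rw [sum_ite_eq']

theorem D_big (hk : 0 < k) (v : Finset (Fin k)) (i : ℕ) (hi : k ≤ i) :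
    ∑ g ∈ v, w g i = (if (⟨0, hk⟩ : Fin k) ∈ v then 1 else 0) := by
  have h1 : ∀ g : Fin k, w g i = (if g = ⟨0, hk⟩ then 1 else 0) := by
    intro g
    unfold w
    by_cases hg : (g : ℕ) = 0
    · have hg' : g = ⟨0, hk⟩ := Fin.ext hg
      rw [if_pos hg, if_pos hg']
    · have hg' : g ≠ ⟨0, hk⟩ := fun h => hg (by rw [h])
      rw [if_neg hg, if_neg hg', if_neg]
      have := g.2
      omega
  simp only [h1]
  rw [sum_ite_eq']

theorem abs_D (hk : 0 < k) (v : Finset (Fin k)) (i : ℕ) : |∑ g ∈ v, w g i| ≤ 1 := by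
  by_cases hi : i < k
  · have := D_eq hk v ⟨i, hi⟩
    simp only at this
    rw [this]
    split_ifs <;> norm_num
  · rw [D_big hk v i (by omega)]
    split_ifs <;> norm_num

/-- `D = 0` iff the coordinate is constant. -/
theorem D_zero_iff (hk : 0 < k) (v : Finset (Fin k)) (i : Fin k) :
    ∑ g ∈ v, w g i = 0 ↔ Comb.C ⟨0, hk⟩ v i := by
  rw [D_eq hk, Comb.C]
  by_cases hi : i = ⟨0, hk⟩
  · subst hi
    simp
  · by_cases h1 : (⟨0, hk⟩ : Fin k) ∈ v <;> by_cases h2 : i ∈ v <;> simp [hi, h1, h2]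

/-- The digit system: `m` is the common exponent. -/
def sysG (n k m : ℕ) (hk : 1 ≤ k) (hm : 3 * k + 4 ≤ m) (hmn : m * k ≤ n) : Sys n k where
  L := k
  E i := if i + 1 < k then 2 ^ (m - 3 * k) else 2 ^ (n - m * (k - 1) - 3 * k)
  w := w
  hk := hk
  E_pos i := by split_ifs <;> positivity
  prod := by
    obtain ⟨j, rfl⟩ : ∃ j, k = j + 1 := ⟨k - 1, by omega⟩
    have hmj : m * j + m ≤ n := by
      have : m * (j + 1) = m * j + m := by ring
      omega
    have h8 : ∀ a : ℕ, 3 * (j + 1) ≤ a → 8 ^ (j + 1) * 2 ^ (a - 3 * (j + 1)) = 2 ^ a := by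
      intro a ha
      rw [show (8 : ℕ) = 2 ^ 3 by norm_num, ← pow_mul, ← pow_add]
      congr 1
      omega
    rw [prod_range_succ]
    have h1 : ∏ x ∈ range j, (8 ^ (j + 1) * if x + 1 < j + 1 then 2 ^ (m - 3 * (j + 1)) else
        2 ^ (n - m * (j + 1 - 1) - 3 * (j + 1))) = 2 ^ (m * j) := by
      rw [prod_congr rfl (fun x hx => by
        rw [if_pos (by have := mem_range.mp hx; omega), h8 m (by omega)])]
      rw [prod_const, card_range, ← pow_mul]
    rw [h1, if_neg (by omega), h8 _ (by simp only [Nat.add_sub_cancel]; omega), ← pow_add]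
    congr 1
    simp only [Nat.add_sub_cancel]
    omega
  hw := abs_D hk

variable {n m : ℕ} (hk : 1 ≤ k) (hm : 3 * k + 4 ≤ m) (hmn : m * k ≤ n)

theorem sysG_E (i : ℕ) : 10 ≤ (sysG n k m hk hm hmn).E i := by
  have h : ∀ a : ℕ, 4 ≤ a → 10 ≤ 2 ^ a := by
    intro a ha
    calc 10 ≤ 2 ^ 4 := by norm_num
      _ ≤ 2 ^ a := Nat.pow_le_pow_right (by norm_num) ha
  have h1 : m * (k - 1) + m ≤ n := by
    obtain ⟨j, rfl⟩ : ∃ j, k = j + 1 := ⟨k - 1, by omega⟩
    have : m * (j + 1) = m * j + m := by ring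
    simp only [Nat.add_sub_cancel]
    omega
  simp only [sysG]
  split_ifs
  · exact h _ (by omega)
  · exact h _ (by omega)

theorem sysG_M (i : ℕ) : 2 ^ m ≤ (sysG n k m hk hm hmn).M i := by
  have h1 : m * (k - 1) + m ≤ n := by
    obtain ⟨j, rfl⟩ : ∃ j, k = j + 1 := ⟨k - 1, by omega⟩
    have : m * (j + 1) = m * j + m := by ring
    simp only [Nat.add_sub_cancel]
    omega
  have h8 : ∀ a : ℕ, 3 * k ≤ a → 8 ^ k * 2 ^ (a - 3 * k) = 2 ^ a := by
    intro a ha
    rw [show (8 : ℕ) = 2 ^ 3 by norm_num, ← pow_mul, ← pow_add]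
    congr 1
    omega
  simp only [Sys.M, sysG]
  split_ifs
  · rw [h8 _ (by omega)]
  · rw [h8 _ (by omega)]
    exact Nat.pow_le_pow_right (by norm_num) (by omega)

/-- Product of all factors but one. -/
theorem prod_others (i : ℕ) (hi : i < k) :
    2 ^ m * ∏ l ∈ (range k).erase i, (sysG n k m hk hm hmn).M l ≤ 2 ^ n := by
  set s := sysG n k m hk hm hmn
  have h1 : s.M i * ∏ l ∈ (range k).erase i, s.M l = 2 ^ n := by
    rw [mul_prod_erase _ _ (mem_range.mpr hi)]
    exact s.prod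
  rw [← h1]
  exact Nat.mul_le_mul_right _ (sysG_M hk hm hmn i)

/-- Good digit tuples: no bad digit. -/
def good (s : Sys n k) (t : ℕ → ℕ) : Prop := ∀ i < k, ¬ s.Bad 9 i (t i)

/-- The properties of an element of `A0` used for cube-freeness. -/
structure El (s : Sys n k) (v : Finset (Fin k)) (y : ZMod (2 ^ n)) : Prop where
  ne : v.Nonempty
  nez : v ≠ {⟨0, hk⟩}
  const : ∀ i : Fin k, Comb.C ⟨0, hk⟩ v i → s.Det i y (Sys.G v) 3
  free : ∀ i : Fin k, ¬ Comb.C ⟨0, hk⟩ v i → ∀ c, ¬ s.Det i y c 6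

theorem El_of_A0 {y : ZMod (2 ^ n)}
    (hy : y ∈ (sysG n k m hk hm hmn).A0 {⟨0, hk⟩} (good (sysG n k m hk hm hmn))) :
    ∃ v, El hk (sysG n k m hk hm hmn) v y := by
  obtain ⟨v, hv1, hv2, t, ht, hg, rfl⟩ := hy
  refine ⟨v, hv1, hv2, fun i hi => ?_, fun i hi c hc => ?_⟩
  · exact (sysG n k m hk hm hmn).det_const ht i.2 ((D_zero_iff hk v i).mpr hi)
  · have b1 := (sysG n k m hk hm hmn).bad_of_det ht i.2
      (fun h => hi ((D_zero_iff hk v i).mp h)) hc
    norm_num at b1
    exact hg i i.2 b1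

theorem cubeFree : CubeFree n k
    ((sysG n k m hk hm hmn).A0 {⟨0, hk⟩} (good (sysG n k m hk hm hmn))) := by
  classical
  intro a ha
  set s := sysG n k m hk hm hmn with hs
  have hL : s.L = k := rfl
  have hex : ∀ σ : Finset (Fin k), σ.Nonempty → ∃ v, El hk s v (∑ i ∈ σ, a i) :=
    fun σ hσ => El_of_A0 hk hm hmn (ha σ hσ)
  let K : Finset (Fin k) → Finset (Fin k) := fun σ =>
    if h : σ.Nonempty then (hex σ h).choose else ∅
  have hK : ∀ σ : Finset (Fin k), σ.Nonempty → El hk s (K σ) (∑ i ∈ σ, a i) := by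
    intro σ hσ
    simp only [K]
    rw [dif_pos hσ]
    exact (hex σ hσ).choose_spec
  have uniq : ∀ (i : Fin k) (y : ZMod (2 ^ n)) (c c' : ℤ), s.Det i y c 3 → s.Det i y c' 6 →
      (8 : ℤ) ^ k ∣ c - c' := by
    intro i y c c' h h'
    refine h.unique s (by rw [hL]; exact i.2) h' ?_
    have := sysG_E hk hm hmn i
    rw [hs]
    norm_num
    omega
  refine Comb.no_map (z := (⟨0, hk⟩ : Fin k)) K (fun σ hσ => ⟨(hK σ hσ).ne, (hK σ hσ).nez⟩)
    fun σ τ hσ hτ hdis => ?_
  have h1 := hK σ hσ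
  have h2 := hK τ hτ
  have h3 := hK (σ ∪ τ) (hσ.mono subset_union_left)
  rw [sum_union hdis] at h3
  set y := ∑ i ∈ σ, a i
  set y' := ∑ i ∈ τ, a i
  have e1 : y + y' - y = y' := by ring
  have e2 : y + y' - y' = y := by ring
  refine ⟨fun i hv hv' => ?_, fun i hv hu => ?_, fun i hv' hu => ?_, fun i hv hv' => ?_⟩
  · by_contra hu
    have d := (h1.const i hv).add s (h2.const i hv')
    exact h3.free i hu _ (d.mono s (by norm_num))
  · by_contra hv'
    have d := (h3.const i hu).sub s (h1.const i hv)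
    rw [e1] at d
    exact h2.free i hv' _ (d.mono s (by norm_num))
  · by_contra hv
    have d := (h3.const i hu).sub s (h2.const i hv')
    rw [e2] at d
    exact h1.free i hv _ (d.mono s (by norm_num))
  · have d := (h1.const i hv).add s (h2.const i hv')
    have hu : Comb.C ⟨0, hk⟩ (K (σ ∪ τ)) i := by
      by_contra hu
      exact h3.free i hu _ (d.mono s (by norm_num))
    have hind := Sys.ind_add (uniq i _ _ _ (h3.const i hu) (d.mono s (by norm_num)))
    constructor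
    · rw [disjoint_left]
      intro g hg hg'
      have h4 := hind g
      have h5 : Sys.ind (K σ) g = 1 := by simp [Sys.ind, hg]
      have h6 : Sys.ind (K τ) g = 1 := by simp [Sys.ind, hg']
      rcases Sys.ind_cases (K (σ ∪ τ)) g with h7 | h7 <;> rw [h5, h6, h7] at h4 <;> norm_num at h4
    · ext g
      have h4 := hind g
      rw [mem_union]
      unfold Sys.ind at h4
      by_cases a1 : g ∈ K (σ ∪ τ) <;> by_cases a2 : g ∈ K σ <;> by_cases a3 : g ∈ K τ <;>
        simp [a1, a2, a3] at h4 ⊢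

end General

end Pool.Agent.H38.CF
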