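import Pool.Agent.H38.CF.General

/-!
MP_12469f_co: the size of the maximal cube-free set for general `k`.
-/

set_option autoImplicit false

namespace Pool.Agent.H38.CF

open Finset

namespace General

variable {k : ℕ} {n m : ℕ} (hk : 1 ≤ k) (hm : 3 * k + 4 ≤ m) (hmn : m * k ≤ n)

/-- Every plane has a constant coordinate. -/
theorem exists_const (v : Finset (Fin k)) (h2 : v ≠ {⟨0, hk⟩}) :
    ∃ i : Fin k, Comb.C ⟨0, hk⟩ v i := by
  by_cases hz : (⟨0, hk⟩ : Fin k) ∈ v
  · obtain ⟨i, hi, hne⟩ : ∃ i ∈ v, i ≠ ⟨0, hk⟩ := by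
      by_contra hno
      push Not at hno
      apply h2
      ext i
      rw [mem_singleton]
      exact ⟨hno i, fun h => h ▸ hz⟩
    exact ⟨i, by simp [Comb.C, hne, hz, hi]⟩
  · exact ⟨⟨0, hk⟩, by simpa [Comb.C] using hz⟩

theorem card_A0 : ((sysG n k m hk hm hmn).A0 {⟨0, hk⟩} (good (sysG n k m hk hm hmn))).ncard ≤
    2 ^ k * 2 ^ (n - m) := by
  classical
  set s := sysG n k m hk hm hmn with hs
  have hmn' : m ≤ n := le_trans (Nat.le_mul_of_pos_right m hk) hmn
  have hsub : s.A0 {⟨0, hk⟩} (good s) ⊆ ⋃ v ∈ (univ.filter fun v : Finset (Fin k) =>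
      v.Nonempty ∧ v ≠ {⟨0, hk⟩}),
      {y : ZMod (2 ^ n) | ∃ t : ℕ → ℕ, (∀ i < s.L, t i ∈ range (s.M i)) ∧
      y = ((s.ival v t : ℤ) : ZMod (2 ^ n))} := by
    rintro y ⟨v, hv1, hv2, t, ht, -, rfl⟩
    simp only [Set.mem_iUnion]
    refine ⟨v, ?_, t, fun i hi => mem_range.mpr (ht i hi), rfl⟩
    rw [mem_filter]
    exact ⟨mem_univ v, hv1, hv2⟩
  refine (Set.ncard_le_ncard hsub (Set.toFinite _)).trans ?_
  refine (ncard_biUnion_le' _ _ (fun _ => 2 ^ (n - m)) fun v hv => ?_).trans ?_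
  · rw [mem_filter] at hv
    refine (s.card_T v _).trans ?_
    simp only [card_range]
    obtain ⟨i, hi⟩ := exists_const hk v hv.2.2
    have hD : s.D v i = 0 := (D_zero_iff hk v i).mpr hi
    have hL : s.L = k := rfl
    rw [hL, ← mul_prod_erase _ _ (mem_range.mpr i.2), if_pos hD, one_mul]
    have h1 : ∏ x ∈ (range k).erase i, (if s.D v x = 0 then 1 else s.M x) ≤
        ∏ x ∈ (range k).erase i, s.M x := by
      refine prod_le_prod' fun x _ => ?_
      split_ifs
      · exact s.M_pos x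
      · exact le_rfl
    refine h1.trans ?_
    have h2 := prod_others hk hm hmn i i.2
    have h3 : 2 ^ n = 2 ^ m * 2 ^ (n - m) := by rw [← pow_add]; congr 1; omega
    rw [h3] at h2
    exact Nat.le_of_mul_le_mul_left h2 (by positivity)
  · rw [sum_const, smul_eq_mul]
    refine Nat.mul_le_mul_right _ ((card_filter_le _ _).trans ?_)
    rw [card_univ, Fintype.card_finset, Fintype.card_fin]

theorem card_Ex_aux (s : Sys n k) (hL : s.L = k) (hmn' : m ≤ n)
    (hoth : ∀ i < k, 2 ^ m * ∏ l ∈ (range k).erase i, s.M l ≤ 2 ^ n)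
    (vx : Finset (Fin k)) :
    (s.Ex vx (good s)).ncard ≤ k * (19 * 8 ^ k * 2 ^ (n - m)) := by
  classical
  let T : ℕ → ℕ → Finset ℕ := fun j l => if l = j then s.badSet 9 l else range (s.M l)
  have hsub : s.Ex vx (good s) ⊆ ⋃ j ∈ range k,
      {y : ZMod (2 ^ n) | ∃ t : ℕ → ℕ, (∀ i < s.L, t i ∈ T j i) ∧
      y = ((s.ival vx t : ℤ) : ZMod (2 ^ n))} := by
    rintro y ⟨t, ht, hg, rfl⟩
    simp only [good] at hg
    push Not at hg
    obtain ⟨j, hj, h1⟩ := hg
    simp only [Set.mem_iUnion]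
    refine ⟨j, mem_range.mpr hj, t, fun l hl => ?_, rfl⟩
    simp only [T]
    split_ifs with h
    · simp only [Sys.badSet, mem_filter, mem_range]
      have h1' : s.Bad ((9 : ℕ) : ℤ) j (t j) := by
        rw [Nat.cast_ofNat]
        exact h1
      rw [← h] at h1'
      exact ⟨ht l hl, h1'⟩
    · exact mem_range.mpr (ht l hl)
  refine (Set.ncard_le_ncard hsub (Set.toFinite _)).trans ?_
  refine (ncard_biUnion_le' _ _ (fun _ => 19 * 8 ^ k * 2 ^ (n - m)) fun j hj => ?_).trans ?_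
  · rw [mem_range] at hj
    refine (s.card_T vx (T j)).trans ?_
    rw [hL, ← mul_prod_erase _ _ (mem_range.mpr hj)]
    have h1 : (if s.D vx j = 0 then 1 else (T j j).card) ≤ 19 * 8 ^ k := by
      split_ifs
      · have : 1 ≤ 8 ^ k := Nat.one_le_pow _ _ (by norm_num)
        omega
      · simp only [T, if_true]
        refine (s.card_badSet 9 j).trans ?_
        rw [mul_comm]
    have h2 : ∏ x ∈ (range k).erase j, (if s.D vx x = 0 then 1 else (T j x).card) ≤
        ∏ x ∈ (range k).erase j, s.M x := by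
      refine prod_le_prod' fun x hx => ?_
      have hxj : x ≠ j := (mem_erase.mp hx).1
      split_ifs
      · exact s.M_pos x
      · simp only [T, if_neg hxj, card_range]
        exact le_rfl
    refine Nat.mul_le_mul h1 (h2.trans ?_)
    have h2 := hoth j hj
    have h3 : 2 ^ n = 2 ^ m * 2 ^ (n - m) := by rw [← pow_add]; congr 1; omega
    rw [h3] at h2
    exact Nat.le_of_mul_le_mul_left h2 (by positivity)
  · rw [sum_const, smul_eq_mul, card_range]

theorem card_Ex : ((sysG n k m hk hm hmn).Ex {⟨0, hk⟩} (good (sysG n k m hk hm hmn))).ncard ≤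
    k * (19 * 8 ^ k * 2 ^ (n - m)) :=
  card_Ex_aux (sysG n k m hk hm hmn) rfl (le_trans (Nat.le_mul_of_pos_right m hk) hmn)
    (prod_others hk hm hmn) _

include hk hm hmn in
/-- The upper bound. -/
theorem upper : minSize n k ≤ (2 ^ k + 19 * k * 8 ^ k) * 2 ^ (n - m) := by
  have hvx : ∀ i < (sysG n k m hk hm hmn).L, (sysG n k m hk hm hmn).D {⟨0, hk⟩} i = 1 := by
    intro i hi
    simp [Sys.D, sysG, w]
  obtain ⟨A, hA, hsub⟩ := (sysG n k m hk hm hmn).assemble {⟨0, hk⟩} hvx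
    (good (sysG n k m hk hm hmn)) (cubeFree hk hm hmn)
  refine (minSize_le hA).trans ((Set.ncard_le_ncard hsub (Set.toFinite _)).trans
    ((Set.ncard_union_le _ _).trans ?_))
  have h1 := card_A0 hk hm hmn
  have h2 := card_Ex hk hm hmn
  calc _ ≤ 2 ^ k * 2 ^ (n - m) + k * (19 * 8 ^ k * 2 ^ (n - m)) := Nat.add_le_add h1 h2
    _ = _ := by ring

end General

/-- Power saving for every `k`. -/
theorem power_saving (k : ℕ) (hk : 2 ≤ k) : ∃ c C : ℝ, 0 < c ∧ 0 < C ∧ ∀ n : ℕ, 1 ≤ n →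
    c * (2 : ℝ) ^ ((n : ℝ) / 2) ≤ minSize n k ∧
    (minSize n k : ℝ) ≤ C * (2 : ℝ) ^ ((1 - 1 / (k : ℝ)) * n) := by
  have hk0 : (0 : ℝ) < k := by positivity
  set N0 := (3 * k + 4) * k with hN0
  refine ⟨1 / 3, 2 * (2 ^ k + 19 * k * 8 ^ k) + 2 ^ N0, by norm_num, by positivity,
    fun n hn => ⟨?_, ?_⟩⟩
  · have h1 := lower_real n k hk hn
    have h2 : Real.sqrt (2 ^ n) = (2 : ℝ) ^ ((n : ℝ) / 2) := by
      rw [Real.sqrt_eq_rpow, ← Real.rpow_natCast, ← Real.rpow_mul (by norm_num)]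
      congr 1
      ring
    rwa [h2] at h1
  · have hk1 : (1 : ℝ) ≤ k := by
      have : (2 : ℝ) ≤ k := by exact_mod_cast hk
      linarith
    have hexp : (0 : ℝ) ≤ (1 - 1 / (k : ℝ)) * n := by
      refine mul_nonneg ?_ (by positivity)
      rw [sub_nonneg, div_le_one hk0]
      exact hk1
    have h1 : (1 : ℝ) ≤ (2 : ℝ) ^ ((1 - 1 / (k : ℝ)) * n) :=
      Real.one_le_rpow (by norm_num) hexp
    rcases le_or_gt N0 n with h | h
    · set m := n / k with hm
      have hm1 : 3 * k + 4 ≤ m := by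
        rw [hm, Nat.le_div_iff_mul_le (by omega)]
        exact h
      have hm2 : m * k ≤ n := Nat.div_mul_le_self n k
      have hup := General.upper (by omega : 1 ≤ k) hm1 hm2
      have hup' : (minSize n k : ℝ) ≤ (2 ^ k + 19 * k * 8 ^ k) * 2 ^ (n - m) := by
        exact_mod_cast hup
      have h3 : (2 : ℝ) ^ (n - m) ≤ 2 * (2 : ℝ) ^ ((1 - 1 / (k : ℝ)) * n) := by
        have hmn : m ≤ n := Nat.div_le_self n k
        have h4 : ((n - m : ℕ) : ℝ) ≤ 1 + (1 - 1 / (k : ℝ)) * n := by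
          rw [Nat.cast_sub hmn]
          have h5 : n < (m + 1) * k := by
            rw [hm]
            have h51 := Nat.div_add_mod n k
            have h52 := Nat.mod_lt n (by omega : k > 0)
            have h53 : (n / k + 1) * k = k * (n / k) + k := by ring
            omega
          have h6 : (n : ℝ) ≤ (m + 1) * k := by exact_mod_cast h5.le
          have h7 : (n : ℝ) / k ≤ m + 1 := (div_le_iff₀ hk0).mpr h6
          have h8 : (1 - 1 / (k : ℝ)) * n = n - n / k := by ring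
          rw [h8]
          linarith
        calc (2 : ℝ) ^ (n - m) = (2 : ℝ) ^ (((n - m : ℕ) : ℝ)) := (Real.rpow_natCast _ _).symm
          _ ≤ (2 : ℝ) ^ (1 + (1 - 1 / (k : ℝ)) * n) :=
            Real.rpow_le_rpow_of_exponent_le (by norm_num) h4
          _ = _ := by rw [Real.rpow_add (by norm_num), Real.rpow_one]
      have h9 : (0 : ℝ) ≤ 2 ^ k + 19 * k * 8 ^ k := by positivity
      have h10 : (0 : ℝ) ≤ 2 ^ N0 := by positivity
      calc (minSize n k : ℝ) ≤ (2 ^ k + 19 * k * 8 ^ k) * 2 ^ (n - m) := hup'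
        _ ≤ (2 ^ k + 19 * k * 8 ^ k) * (2 * (2 : ℝ) ^ ((1 - 1 / (k : ℝ)) * n)) := by gcongr
        _ ≤ _ := by nlinarith
    · have h2 : (minSize n k : ℝ) ≤ 2 ^ n := by
        exact_mod_cast minSize_le_pow n k (by omega)
      have h3 : (2 : ℝ) ^ n ≤ 2 ^ N0 := pow_le_pow_right₀ (by norm_num) h.le
      have h9 : (0 : ℝ) ≤ 2 ^ k + 19 * k * 8 ^ k := by positivity
      have h10 : (0 : ℝ) < 2 ^ N0 := by positivity
      nlinarith

end Pool.Agent.H38.CF
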