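import Pool.Agent.H38.CF.Count

/-!
MP_12469f_co: the design for `k = 3`.  Four coordinates, three generators: the first is free at
the coordinates 0 and 3, the second at 1 and 2, the third is minus the digits 1 and 3.  The six
nonempty sums other than `x` are free exactly at the six pairs of coordinates.
-/

set_option autoImplicit false

namespace Pool.Agent.H38.CF

open Finset

namespace Three

/-- The weights. -/
def W : Fin 3 → Fin 4 → ℤ := ![![1, 0, 0, 1], ![0, 1, 1, 0], ![0, -1, 0, -1]]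

def Dz (v : Finset (Fin 3)) (i : Fin 4) : ℤ := ∑ g ∈ v, W g i

/-- The set of generators whose sum is `x`. -/
def vx : Finset (Fin 3) := {0, 1}

/-- The planes. -/
def Pl (v : Finset (Fin 3)) : Prop := v ≠ ∅ ∧ v ≠ vx

instance : DecidablePred Pl := fun v => by unfold Pl; infer_instance

/-- A common constant coordinate. -/
def Com (p r : Finset (Fin 3)) : Prop := ∃ i, Dz p i = 0 ∧ Dz r i = 0

instance (p r : Finset (Fin 3)) : Decidable (Com p r) := by unfold Com; infer_instance

theorem abs_Dz : ∀ v i, |Dz v i| ≤ 1 := by decide +kernel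

theorem Dz_vx : ∀ i, Dz vx i = 1 := by decide +kernel

theorem fact1 : ∀ p r, Pl p → Pl r → Com p r ∨ ∀ i, Dz r i ≠ 0 → Dz p i = 0 := by
  decide +kernel

theorem fact2 : ∀ p, Pl p → ∀ i, Dz p i = 0 →
    (univ.filter fun r => Pl r ∧ r ≠ p ∧ Dz r i ≠ 0).card = 3 := by decide +kernel

theorem fact3 : ∀ p, Pl p → (univ.filter fun r => Pl r ∧ Com p r).card = 5 := by decide +kernel

theorem fact4 : ∀ p r, Pl p → Pl r → r ≠ p → Com p r → ∃ j, Dz p j = 0 ∧ Dz r j ≠ 0 ∧
    (univ.filter fun x => Pl x ∧ x ≠ p ∧ x ≠ r ∧ Com p x ∧ Dz x j ≠ 0).card ≤ 1 := by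
  decide +kernel

theorem fact5 : (univ.filter fun r => Pl r).card = 6 := by decide +kernel

variable {n : ℕ}

/-- The properties of an element of `A0` used for cube-freeness. -/
structure El (s : Sys n 3) (v : Finset (Fin 3)) (y : ZMod (2 ^ n)) : Prop where
  pl : Pl v
  const : ∀ i : Fin 4, Dz v i = 0 → s.Det i y (Sys.G v) 3
  free : ¬ ∀ i : Fin 4, Dz v i ≠ 0 → ∃ c, s.Det i y c 12

section

variable {s : Sys n 3} (hL : s.L = 4) (hE : ∀ i, 13 ≤ s.E i)

include hL hE

/-- Two determinations of the same coordinate. -/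
theorem uniq {i : Fin 4} {y : ZMod (2 ^ n)} {c c' e e' : ℤ} (h : s.Det i y c e)
    (h' : s.Det i y c' e') (he : e + e' ≤ 12) : (8 : ℤ) ^ 3 ∣ c - c' := by
  refine h.unique s (by rw [hL]; exact i.2) h' ?_
  have := hE i
  omega

theorem Pl.nonempty {v : Finset (Fin 3)} (h : Pl v) : v.Nonempty := nonempty_iff_ne_empty.mpr h.1

theorem line_aux {v u : Finset (Fin 3)} {y y' : ZMod (2 ^ n)} (h : El s v y) (h' : El s v y')
    (hu : El s u (y + y')) : False := by
  rcases fact1 v u h.pl hu.pl with ⟨i, hi1, hi2⟩ | hall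
  · have h1 := (h.const i hi1).add s (h'.const i hi1)
    have h2 := hu.const i hi2
    exact Sys.not_dvd_two (Pl.nonempty hL hE h.pl) (uniq hL hE h2 h1 (by norm_num))
  · refine hu.free fun i hi => ⟨_, ((h.const i (hall i hi)).add s (h'.const i (hall i hi))).mono s ?_⟩
    norm_num

theorem line_aux2 {v v' : Finset (Fin 3)} {y y' : ZMod (2 ^ n)} (h : El s v y) (h' : El s v' y')
    (hu : El s v (y + y')) : False := by
  have key : ∀ i : Fin 4, Dz v i = 0 → s.Det i y' 0 6 := by
    intro i hi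
    have h1 := (hu.const i hi).sub s (h.const i hi)
    have h2 : y + y' - y = y' := by ring
    rw [h2, sub_self] at h1
    exact h1
  rcases fact1 v v' h.pl h'.pl with ⟨i, hi1, hi2⟩ | hall
  · have h2 := uniq hL hE (h'.const i hi2) (key i hi1) (by norm_num)
    rw [sub_zero] at h2
    exact Sys.not_dvd (Pl.nonempty hL hE h'.pl) h2
  · exact h'.free fun i hi => ⟨_, (key i (hall i hi)).mono s (by norm_num)⟩

theorem line {v v' u : Finset (Fin 3)} {y y' z : ZMod (2 ^ n)} (hz : z = y + y')
    (h : El s v y) (h' : El s v' y') (hu : El s u z) : v ≠ v' ∧ u ≠ v ∧ u ≠ v' := by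
  subst hz
  refine ⟨?_, ?_, ?_⟩
  · rintro rfl
    exact line_aux hL hE h h' hu
  · rintro rfl
    exact line_aux2 hL hE h h' hu
  · rintro rfl
    exact line_aux2 hL hE h' h (by rwa [add_comm])

/-- The main case. -/
theorem core {y1 y2 y3 y12 y13 y23 y123 : ZMod (2 ^ n)} {v1 v2 v3 p v23 v123 : Finset (Fin 3)}
    (e12 : y12 = y1 + y2) (e13 : y13 = y1 + y3) (e23 : y23 = y2 + y3)
    (e123 : y123 = y1 + y2 + y3) (h1 : El s v1 y1) (h2 : El s v2 y2) (h3 : El s v3 y3)
    (h12 : El s p y12) (h13 : El s p y13) (h23 : El s v23 y23) (h123 : El s v123 y123) :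
    False := by
  obtain ⟨n12, np1, np2⟩ := line hL hE e12 h1 h2 h12
  obtain ⟨n13, -, np3⟩ := line hL hE e13 h1 h3 h13
  obtain ⟨n23, n23_2, n23_3⟩ := line hL hE e23 h2 h3 h23
  obtain ⟨-, n123_p, n123_3⟩ := line hL hE (show y123 = y12 + y3 by rw [e123, e12]) h12 h3 h123
  obtain ⟨-, -, n123_2⟩ := line hL hE (show y123 = y13 + y2 by rw [e123, e13]; ring) h13 h2 h123
  obtain ⟨n23_1, n123_23, n123_1⟩ :=
    line hL hE (show y123 = y23 + y1 by rw [e123, e23]; ring) h23 h1 h123
  -- the four points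
  set Q : Finset (Finset (Fin 3)) := {v1, v2, v3, v123} with hQ
  have hQc : Q.card = 4 := by
    rw [hQ, card_insert_of_notMem, card_insert_of_notMem, card_pair n123_3.symm]
    · simp only [mem_insert, mem_singleton, not_or]; exact ⟨n23, n123_2.symm⟩
    · simp only [mem_insert, mem_singleton, not_or]; exact ⟨n12, n13, n123_1.symm⟩
  have hQm : ∀ r ∈ Q, Pl r ∧ r ≠ p := by
    intro r hr
    simp only [hQ, mem_insert, mem_singleton] at hr
    rcases hr with rfl | rfl | rfl | rfl
    · exact ⟨h1.pl, np1.symm⟩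
    · exact ⟨h2.pl, np2.symm⟩
    · exact ⟨h3.pl, np3.symm⟩
    · exact ⟨h123.pl, n123_p⟩
  -- some point is constant at every constant coordinate of `p`
  have hex : ∀ i, Dz p i = 0 → ∃ r ∈ Q, Dz r i = 0 := by
    intro i hi
    by_contra hno
    push Not at hno
    have hsub : Q ⊆ univ.filter fun r => Pl r ∧ r ≠ p ∧ Dz r i ≠ 0 := by
      intro r hr
      rw [mem_filter]
      exact ⟨mem_univ r, (hQm r hr).1, (hQm r hr).2, hno r hr⟩
    have := card_le_card hsub
    rw [hQc, fact2 p h12.pl i hi] at this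
    omega
  -- everything is determined
  have hdet : ∀ i, Dz p i = 0 → (∃ c, s.Det i y1 c 12) ∧ (∃ c, s.Det i y2 c 12) ∧
      (∃ c, s.Det i y3 c 12) ∧ (∃ c, s.Det i y123 c 12) ∧ ∃ c, s.Det i y23 c 12 := by
    intro i hi
    have d12 := h12.const i hi
    have d13 := h13.const i hi
    -- reduction: `y1` and `y2`, `y3` determined with small error
    have fin : ∀ c1 c2 c3 e1 e2 e3 : ℤ, s.Det i y1 c1 e1 → s.Det i y2 c2 e2 → s.Det i y3 c3 e3 →
        e1 ≤ 9 → e2 ≤ 9 → e3 ≤ 9 → e2 + e3 ≤ 12 → 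
        (∃ c, s.Det i y1 c 12) ∧ (∃ c, s.Det i y2 c 12) ∧
      (∃ c, s.Det i y3 c 12) ∧ (∃ c, s.Det i y123 c 12) ∧ ∃ c, s.Det i y23 c 12 := by
      intro c1 c2 c3 e1 e2 e3 d1 d2 d3 he1 he2 he3 he
      refine ⟨⟨_, d1.mono s (by linarith)⟩, ⟨_, d2.mono s (by linarith)⟩,
        ⟨_, d3.mono s (by linarith)⟩, ⟨_, (e123 ▸ e12 ▸ (d12.add s d3)).mono s (by linarith)⟩,
        ⟨_, (e23 ▸ (d2.add s d3)).mono s (by linarith)⟩⟩
    obtain ⟨r, hr, hri⟩ := hex i hi
    have s2 : y12 - y1 = y2 := by rw [e12]; ring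
    have s3 : y13 - y1 = y3 := by rw [e13]; ring
    have s12 : y12 - y2 = y1 := by rw [e12]; ring
    have s13 : y13 - y3 = y1 := by rw [e13]; ring
    have t3 : y123 - y12 = y3 := by rw [e12, e123]; ring
    have t2 : y123 - y13 = y2 := by rw [e13, e123]; ring
    simp only [hQ, mem_insert, mem_singleton] at hr
    rcases hr with rfl | rfl | rfl | rfl
    · have d1 := h1.const i hri
      have d2 := d12.sub s d1
      have d3 := d13.sub s d1
      rw [s2] at d2
      rw [s3] at d3
      exact fin _ _ _ _ _ _ d1 d2 d3 (by norm_num) (by norm_num) (by norm_num) (by norm_num)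
    · have d2 := h2.const i hri
      have d1 := d12.sub s d2
      rw [s12] at d1
      have d3 := d13.sub s d1
      rw [s3] at d3
      exact fin _ _ _ _ _ _ d1 d2 d3 (by norm_num) (by norm_num) (by norm_num) (by norm_num)
    · have d3 := h3.const i hri
      have d1 := d13.sub s d3
      rw [s13] at d1
      have d2 := d12.sub s d1
      rw [s2] at d2
      exact fin _ _ _ _ _ _ d1 d2 d3 (by norm_num) (by norm_num) (by norm_num) (by norm_num)
    · have d123 := h123.const i hri
      have d3 := d123.sub s d12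
      rw [t3] at d3
      have d2 := d123.sub s d13
      rw [t2] at d2
      have d1 := d12.sub s d2
      rw [s12] at d1
      exact fin _ _ _ _ _ _ d1 d2 d3 (by norm_num) (by norm_num) (by norm_num) (by norm_num)
  -- every plane has a common constant coordinate with `p`
  have com : ∀ (r : Finset (Fin 3)) (y : ZMod (2 ^ n)), El s r y →
      (∀ i, Dz p i = 0 → ∃ c, s.Det i y c 12) → Com p r := by
    intro r y hr hy
    rcases fact1 p r h12.pl hr.pl with h | h
    · exact h
    · exact absurd (fun i hi => hy i (h i hi)) hr.free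
  have c1 := com v1 y1 h1 fun i hi => (hdet i hi).1
  have c2 := com v2 y2 h2 fun i hi => (hdet i hi).2.1
  have c3 := com v3 y3 h3 fun i hi => (hdet i hi).2.2.1
  have c123 := com v123 y123 h123 fun i hi => (hdet i hi).2.2.2.1
  have c23 := com v23 y23 h23 fun i hi => (hdet i hi).2.2.2.2
  have hcp : Com p p := by
    rcases fact1 p p h12.pl h12.pl with h | h
    · exact h
    · obtain ⟨i, hi⟩ := c1
      exact ⟨i, hi.1, hi.1⟩
  -- `K(23) = p`
  have e23p : v23 = p := by
    by_contra hne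
    have hnot : v23 ∉ insert p Q := by
      simp only [hQ, mem_insert, mem_singleton, not_or]
      exact ⟨hne, n23_1, n23_2, n23_3, n123_23.symm⟩
    have hp : p ∉ Q := fun h => (hQm p h).2 rfl
    have hsub : insert v23 (insert p Q) ⊆ univ.filter fun r => Pl r ∧ Com p r := by
      intro r hr
      rw [mem_filter]
      refine ⟨mem_univ r, ?_⟩
      simp only [hQ, mem_insert, mem_singleton] at hr
      rcases hr with rfl | rfl | rfl | rfl | rfl | rfl
      · exact ⟨h23.pl, c23⟩
      · exact ⟨h12.pl, hcp⟩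
      · exact ⟨h1.pl, c1⟩
      · exact ⟨h2.pl, c2⟩
      · exact ⟨h3.pl, c3⟩
      · exact ⟨h123.pl, c123⟩
    have := card_le_card hsub
    rw [fact3 p h12.pl, card_insert_of_notMem hnot, card_insert_of_notMem hp, hQc] at this
    omega
  subst e23p
  obtain ⟨j, hj1, -, hj3⟩ := fact4 v23 v123 h12.pl h123.pl n123_p c123
  rw [card_le_one] at hj3
  have one : ∀ x x', x ∈ ({v1, v2, v3} : Finset (Finset (Fin 3))) →
      x' ∈ ({v1, v2, v3} : Finset (Finset (Fin 3))) → Dz x j ≠ 0 → Dz x' j ≠ 0 → x = x' := by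
    have hm : ∀ x ∈ ({v1, v2, v3} : Finset (Finset (Fin 3))), Dz x j ≠ 0 →
        x ∈ univ.filter fun x => Pl x ∧ x ≠ v23 ∧ x ≠ v123 ∧ Com v23 x ∧ Dz x j ≠ 0 := by
      intro x hx hxj
      rw [mem_filter]
      simp only [mem_insert, mem_singleton] at hx
      rcases hx with rfl | rfl | rfl
      · exact ⟨mem_univ _, h1.pl, np1.symm, n123_1.symm, c1, hxj⟩
      · exact ⟨mem_univ _, h2.pl, np2.symm, n123_2.symm, c2, hxj⟩
      · exact ⟨mem_univ _, h3.pl, np3.symm, n123_3.symm, c3, hxj⟩
    intro x x' hx hx' hxj hxj'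
    exact hj3 x (hm x hx hxj) x' (hm x' hx' hxj')
  -- two of the three generators are constant at `j`: contradiction
  have fin : ∀ (x x' : Finset (Fin 3)) (y y' z z' : ZMod (2 ^ n)), x ≠ x' → El s x y → El s x' y' →
      El s v23 z → El s v23 z' → y - y' = z - z' → Dz x j = 0 → Dz x' j = 0 → False := by
    intro x x' y y' z z' hne hx hx' hz hz' he hxj hxj'
    have d1 := (hx.const j hxj).sub s (hx'.const j hxj')
    have d2 := (hz.const j hj1).sub s (hz'.const j hj1)
    rw [he] at d1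
    have := uniq hL hE d1 d2 (by norm_num)
    rw [sub_self, sub_zero] at this
    exact hne (Sys.eq_of_dvd this)
  by_cases hj : Dz v1 j = 0
  · by_cases hj' : Dz v2 j = 0
    · exact fin v1 v2 y1 y2 y13 y23 n12 h1 h2 h13 h23 (by rw [e13, e23]; ring) hj hj'
    · by_cases hj'' : Dz v3 j = 0
      · exact fin v1 v3 y1 y3 y12 y23 n13 h1 h3 h12 h23 (by rw [e12, e23]; ring) hj hj''
      · exact n23 (one v2 v3 (by simp) (by simp) hj' hj'')
  · by_cases hj' : Dz v2 j = 0
    · by_cases hj'' : Dz v3 j = 0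
      · exact fin v2 v3 y2 y3 y12 y13 n23 h2 h3 h12 h13 (by rw [e12, e13]; ring) hj' hj''
      · exact n13 (one v1 v3 (by simp) (by simp) hj hj'')
    · exact n12 (one v1 v2 (by simp) (by simp) hj hj')

/-- No cube. -/
theorem no_cube {y1 y2 y3 y12 y13 y23 y123 : ZMod (2 ^ n)}
    {v1 v2 v3 v12 v13 v23 v123 : Finset (Fin 3)}
    (e12 : y12 = y1 + y2) (e13 : y13 = y1 + y3) (e23 : y23 = y2 + y3)
    (e123 : y123 = y1 + y2 + y3) (h1 : El s v1 y1) (h2 : El s v2 y2) (h3 : El s v3 y3)
    (h12 : El s v12 y12) (h13 : El s v13 y13) (h23 : El s v23 y23) (h123 : El s v123 y123) :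
    False := by
  obtain ⟨n12, n12_1, n12_2⟩ := line hL hE e12 h1 h2 h12
  obtain ⟨n13, n13_1, n13_3⟩ := line hL hE e13 h1 h3 h13
  obtain ⟨n23, n23_2, n23_3⟩ := line hL hE e23 h2 h3 h23
  obtain ⟨n12_3, n123_12, n123_3⟩ :=
    line hL hE (show y123 = y12 + y3 by rw [e123, e12]) h12 h3 h123
  obtain ⟨n13_2, n123_13, n123_2⟩ :=
    line hL hE (show y123 = y13 + y2 by rw [e123, e13]; ring) h13 h2 h123
  obtain ⟨n23_1, n123_23, n123_1⟩ :=
    line hL hE (show y123 = y23 + y1 by rw [e123, e23]; ring) h23 h1 h123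
  by_cases ha : v12 = v13
  · subst ha
    exact core hL hE e12 e13 e23 e123 h1 h2 h3 h12 h13 h23 h123
  by_cases hb : v12 = v23
  · subst hb
    exact core hL hE (by rw [e12]; ring) e23 e13 (by rw [e123]; ring) h2 h1 h3 h12 h23 h13 h123
  by_cases hc : v13 = v23
  · subst hc
    exact core hL hE (by rw [e13]; ring) (by rw [e23]; ring) e12 (by rw [e123]; ring)
      h3 h1 h2 h13 h23 h12 h123
  -- seven different planes
  set Q : Finset (Finset (Fin 3)) := {v1, v2, v3, v123, v12, v13, v23} with hQ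
  have hQc : Q.card = 7 := by
    rw [hQ, card_insert_of_notMem, card_insert_of_notMem, card_insert_of_notMem,
      card_insert_of_notMem, card_insert_of_notMem, card_pair hc]
    · simp only [mem_insert, mem_singleton, not_or]; exact ⟨ha, hb⟩
    · simp only [mem_insert, mem_singleton, not_or]; exact ⟨n123_12, n123_13, n123_23⟩
    · simp only [mem_insert, mem_singleton, not_or]
      exact ⟨n123_3.symm, n12_3.symm, n13_3.symm, n23_3.symm⟩
    · simp only [mem_insert, mem_singleton, not_or]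
      exact ⟨n23, n123_2.symm, n12_2.symm, n13_2.symm, n23_2.symm⟩
    · simp only [mem_insert, mem_singleton, not_or]
      exact ⟨n12, n13, n123_1.symm, n12_1.symm, n13_1.symm, n23_1.symm⟩
  have hsub : Q ⊆ univ.filter fun r => Pl r := by
    intro r hr
    rw [mem_filter]
    refine ⟨mem_univ r, ?_⟩
    simp only [hQ, mem_insert, mem_singleton] at hr
    rcases hr with rfl | rfl | rfl | rfl | rfl | rfl | rfl
    · exact h1.pl
    · exact h2.pl
    · exact h3.pl
    · exact h123.pl
    · exact h12.pl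
    · exact h13.pl
    · exact h23.pl
  have := card_le_card hsub
  rw [fact5, hQc] at this
  omega

end

end Three

end Pool.Agent.H38.CF
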