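import Pool.Agent.H38.CF.Three

/-!
MP_12469f_co: the digit system for `k = 3` and the size of the maximal cube-free set.
-/

set_option autoImplicit false

namespace Pool.Agent.H38.CF

open Finset

theorem ncard_biUnion_le' {ι α : Type*} [Finite α] (I : Finset ι) (f : ι → Set α) (c : ι → ℕ)
    (h : ∀ i ∈ I, (f i).ncard ≤ c i) : (⋃ i ∈ I, f i).ncard ≤ ∑ i ∈ I, c i := by
  classical
  induction I using Finset.induction_on with
  | empty => simp
  | insert i I hi ih =>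
    rw [Finset.set_biUnion_insert, sum_insert hi]
    refine (Set.ncard_union_le _ _).trans (Nat.add_le_add (h i (mem_insert_self i I)) (ih ?_))
    exact fun j hj => h j (mem_insert_of_mem hj)

theorem minSize_le_pow (n k : ℕ) (hk : 1 ≤ k) : minSize n k ≤ 2 ^ n := by
  obtain ⟨A, hA⟩ := exists_maxCubeFree n k hk
  refine (minSize_le hA).trans ?_
  have h := Set.ncard_le_ncard (Set.subset_univ A) (Set.toFinite _)
  have hcard : (Set.univ : Set (ZMod (2 ^ n))).ncard = 2 ^ n := by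
    rw [Set.ncard_univ, Nat.card_eq_fintype_card, ZMod.card]
  rwa [hcard] at h

namespace Three

theorem fact6 : ∀ p, Pl p → ∃ i j, i ≠ j ∧ Dz p i ≠ 0 ∧ Dz p j ≠ 0 := by decide +kernel

theorem fact7 : ∀ p, Pl p → (Dz p 0 = 0 ∧ Dz p 1 = 0) ∨ (Dz p 0 = 0 ∧ Dz p 2 = 0) ∨
    (Dz p 1 = 0 ∧ Dz p 2 = 0) ∨ (∃ i : Fin 4, i ≠ 3 ∧ Dz p i = 0 ∧ Dz p 3 = 0) := by
  decide +kernel

/-- The digit system. -/
def sys3 (n : ℕ) (hn : 52 ≤ n) : Sys n 3 where
  L := 4
  E i := if i < 3 then 2 ^ (n / 4 - 9) else 2 ^ (n - 3 * (n / 4) - 9)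
  w g i := if h : i < 4 then W g ⟨i, h⟩ else 0
  hk := by norm_num
  E_pos i := by split_ifs <;> positivity
  prod := by
    simp only [prod_range_succ, prod_range_zero, one_mul]
    norm_num
    have h1 : (512 : ℕ) * 2 ^ (n / 4 - 9) = 2 ^ (n / 4) := by
      rw [show (512 : ℕ) = 2 ^ 9 by norm_num, ← pow_add]
      congr 1
      omega
    have h2 : (512 : ℕ) * 2 ^ (n - 3 * (n / 4) - 9) = 2 ^ (n - 3 * (n / 4)) := by
      rw [show (512 : ℕ) = 2 ^ 9 by norm_num, ← pow_add]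
      congr 1
      omega
    rw [h1, h2, ← pow_add, ← pow_add, ← pow_add]
    congr 1
    omega
  hw v i := by
    by_cases h : i < 4
    · simp only [h, dite_true]
      exact abs_Dz v ⟨i, h⟩
    · simp [h]

variable {n : ℕ} (hn : 52 ≤ n)

theorem sys3_E (i : ℕ) : 13 ≤ (sys3 n hn).E i := by
  have h : ∀ m : ℕ, 4 ≤ m → 13 ≤ 2 ^ m := by
    intro m hm
    calc 13 ≤ 2 ^ 4 := by norm_num
      _ ≤ 2 ^ m := Nat.pow_le_pow_right (by norm_num) hm
  simp only [sys3]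
  split_ifs
  · exact h _ (by omega)
  · exact h _ (by omega)

theorem sys3_M (i : ℕ) : (sys3 n hn).M i = if i < 3 then 2 ^ (n / 4) else 2 ^ (n - 3 * (n / 4)) := by
  simp only [Sys.M, sys3]
  split_ifs
  · rw [show (8 : ℕ) ^ 3 = 2 ^ 9 by norm_num, ← pow_add]
    congr 1
    omega
  · rw [show (8 : ℕ) ^ 3 = 2 ^ 9 by norm_num, ← pow_add]
    congr 1
    omega

theorem sys3_D (v : Finset (Fin 3)) (i : Fin 4) : (sys3 n hn).D v i = Dz v i := by
  simp only [Sys.D, sys3, Dz, i.2, dite_true, Fin.eta]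

/-- Good digit tuples: at most one bad digit. -/
def good (s : Sys n 3) (t : ℕ → ℕ) : Prop :=
  ∀ i < 4, ∀ j < 4, i ≠ j → ¬ (s.Bad 15 i (t i) ∧ s.Bad 15 j (t j))

theorem El_of_A0 {y : ZMod (2 ^ n)} (hy : y ∈ (sys3 n hn).A0 vx (good (sys3 n hn))) :
    ∃ v, El (sys3 n hn) v y := by
  obtain ⟨v, hv1, hv2, t, ht, hg, rfl⟩ := hy
  have hpl : Pl v := ⟨nonempty_iff_ne_empty.mp hv1, hv2⟩
  refine ⟨v, hpl, fun i hi => ?_, fun hall => ?_⟩
  · exact (sys3 n hn).det_const ht i.2 (by rw [sys3_D, hi])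
  · obtain ⟨i, j, hij, hi, hj⟩ := fact6 v hpl
    obtain ⟨c, hc⟩ := hall i hi
    obtain ⟨c', hc'⟩ := hall j hj
    have b1 := (sys3 n hn).bad_of_det ht i.2 (by rw [sys3_D]; exact hi) hc
    have b2 := (sys3 n hn).bad_of_det ht j.2 (by rw [sys3_D]; exact hj) hc'
    norm_num at b1 b2
    exact hg i i.2 j j.2 (fun h => hij (Fin.ext h)) ⟨b1, b2⟩

theorem cubeFree : CubeFree n 3 ((sys3 n hn).A0 vx (good (sys3 n hn))) := by
  intro a ha
  obtain ⟨v1, h1⟩ := El_of_A0 hn (ha {0} (by decide))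
  obtain ⟨v2, h2⟩ := El_of_A0 hn (ha {1} (by decide))
  obtain ⟨v3, h3⟩ := El_of_A0 hn (ha {2} (by decide))
  obtain ⟨v12, h12⟩ := El_of_A0 hn (ha {0, 1} (by decide))
  obtain ⟨v13, h13⟩ := El_of_A0 hn (ha {0, 2} (by decide))
  obtain ⟨v23, h23⟩ := El_of_A0 hn (ha {1, 2} (by decide))
  obtain ⟨v123, h123⟩ := El_of_A0 hn (ha {0, 1, 2} (by decide))
  rw [sum_singleton] at h1 h2 h3
  rw [sum_pair (by decide)] at h12 h13 h23
  rw [sum_insert (by decide), sum_pair (by decide)] at h123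
  exact no_cube (s := sys3 n hn) rfl (sys3_E hn) rfl rfl rfl (by ring) h1 h2 h3 h12 h13 h23 h123

theorem card_A0 : ((sys3 n hn).A0 vx (good (sys3 n hn))).ncard ≤ 8 * 2 ^ (n - 2 * (n / 4)) := by
  set s := sys3 n hn with hs
  have hsub : s.A0 vx (good s) ⊆ ⋃ v ∈ (univ.filter fun v : Finset (Fin 3) => Pl v),
      {y : ZMod (2 ^ n) | ∃ t : ℕ → ℕ, (∀ i < s.L, t i ∈ range (s.M i)) ∧
      y = ((s.ival v t : ℤ) : ZMod (2 ^ n))} := by
    rintro y ⟨v, hv1, hv2, t, ht, -, rfl⟩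
    simp only [Set.mem_iUnion]
    refine ⟨v, ?_, t, fun i hi => mem_range.mpr (ht i hi), rfl⟩
    rw [mem_filter]
    exact ⟨mem_univ v, nonempty_iff_ne_empty.mp hv1, hv2⟩
  refine (Set.ncard_le_ncard hsub (Set.toFinite _)).trans ?_
  refine (ncard_biUnion_le' _ _ (fun _ => 2 ^ (n - 2 * (n / 4))) fun v hv => ?_).trans ?_
  · rw [mem_filter] at hv
    refine (s.card_T v _).trans ?_
    simp only [card_range]
    have hL : s.L = 4 := rfl
    have hM0 : s.M 0 = 2 ^ (n / 4) := by rw [hs, sys3_M]; simp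
    have hM1 : s.M 1 = 2 ^ (n / 4) := by rw [hs, sys3_M]; simp
    have hM2 : s.M 2 = 2 ^ (n / 4) := by rw [hs, sys3_M]; simp
    have hM3 : s.M 3 = 2 ^ (n - 3 * (n / 4)) := by rw [hs, sys3_M]; simp
    have hD0 : s.D v 0 = Dz v 0 := sys3_D hn v 0
    have hD1 : s.D v 1 = Dz v 1 := sys3_D hn v 1
    have hD2 : s.D v 2 = Dz v 2 := sys3_D hn v 2
    have hD3 : s.D v 3 = Dz v 3 := sys3_D hn v 3
    rw [hL]
    simp only [prod_range_succ, prod_range_zero, one_mul, hD0, hD1, hD2, hD3, hM0, hM1, hM2, hM3]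
    have ha : 1 ≤ 2 ^ (n / 4) := Nat.one_le_two_pow
    have hb : 2 ^ (n / 4) ≤ 2 ^ (n - 3 * (n / 4)) := Nat.pow_le_pow_right (by norm_num) (by omega)
    have hab : 2 ^ (n - 2 * (n / 4)) = 2 ^ (n / 4) * 2 ^ (n - 3 * (n / 4)) := by
      rw [← pow_add]; congr 1; omega
    rw [hab]
    set a := 2 ^ (n / 4)
    set b := 2 ^ (n - 3 * (n / 4))
    have hi : ∀ (P : Prop) [Decidable P] (x : ℕ), 1 ≤ x → (if P then 1 else x) ≤ x := by
      intro P _ x hx
      split_ifs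
      · exact hx
      · exact le_rfl
    have hb1 : 1 ≤ b := ha.trans hb
    rcases fact7 v hv.2 with ⟨h0, h1⟩ | ⟨h0, h1⟩ | ⟨h0, h1⟩ | ⟨i, hi3, h0, h1⟩
    · rw [if_pos h0, if_pos h1, one_mul, one_mul]
      exact Nat.mul_le_mul (hi _ _ ha) (hi _ _ hb1)
    · rw [if_pos h0, if_pos h1, one_mul, mul_one]
      exact Nat.mul_le_mul (hi _ _ ha) (hi _ _ hb1)
    · rw [if_pos h0, if_pos h1, mul_one, mul_one]
      exact Nat.mul_le_mul (hi _ _ ha) (hi _ _ hb1)
    · rw [if_pos h1, mul_one]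
      have haab : a * a ≤ a * b := Nat.mul_le_mul_left _ hb
      refine le_trans ?_ haab
      fin_cases i
      · simp only [Fin.zero_eta, Fin.isValue] at h0
        rw [if_pos h0, one_mul]
        exact Nat.mul_le_mul (hi _ _ ha) (hi _ _ ha)
      · simp only [Fin.mk_one, Fin.isValue] at h0
        rw [if_pos h0, mul_one]
        exact Nat.mul_le_mul (hi _ _ ha) (hi _ _ ha)
      · simp only [Fin.reduceFinMk, Fin.isValue] at h0
        rw [if_pos h0, mul_one]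
        exact Nat.mul_le_mul (hi _ _ ha) (hi _ _ ha)
      · exact absurd rfl hi3
  · rw [sum_const, smul_eq_mul]
    refine Nat.mul_le_mul_right _ ?_
    rw [fact5]
    norm_num

theorem card_Ex : ((sys3 n hn).Ex vx (good (sys3 n hn))).ncard ≤
    16 * (15872 ^ 2 * 2 ^ (n - 2 * (n / 4))) := by
  classical
  set s := sys3 n hn with hs
  let T : ℕ × ℕ → ℕ → Finset ℕ := fun p l =>
    if l = p.1 ∨ l = p.2 then s.badSet 15 l else range (s.M l)
  have hsub : s.Ex vx (good s) ⊆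
      ⋃ p ∈ ((range 4 ×ˢ range 4).filter fun p : ℕ × ℕ => p.1 ≠ p.2),
      {y : ZMod (2 ^ n) | ∃ t : ℕ → ℕ, (∀ i < s.L, t i ∈ T p i) ∧
      y = ((s.ival vx t : ℤ) : ZMod (2 ^ n))} := by
    rintro y ⟨t, ht, hg, rfl⟩
    simp only [good] at hg
    push Not at hg
    obtain ⟨i, hi, j, hj, hij, h1, h2⟩ := hg
    simp only [Set.mem_iUnion]
    refine ⟨(i, j), ?_, t, fun l hl => ?_, rfl⟩
    · rw [mem_filter, mem_product, mem_range, mem_range]
      exact ⟨⟨hi, hj⟩, hij⟩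
    · simp only [T]
      split_ifs with h
      · simp only [Sys.badSet, mem_filter, mem_range]
        refine ⟨ht l hl, ?_⟩
        rcases h with rfl | rfl
        · exact h1
        · exact h2
      · exact mem_range.mpr (ht l hl)
  refine (Set.ncard_le_ncard hsub (Set.toFinite _)).trans ?_
  refine (ncard_biUnion_le' _ _ (fun _ => 15872 ^ 2 * 2 ^ (n - 2 * (n / 4))) fun p hp => ?_).trans ?_
  · rw [mem_filter, mem_product, mem_range, mem_range] at hp
    obtain ⟨⟨hp1, hp2⟩, hp3⟩ := hp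
    refine (s.card_T vx _).trans ?_
    have hL : s.L = 4 := rfl
    have hM0 : s.M 0 = 2 ^ (n / 4) := by rw [hs, sys3_M]; simp
    have hM1 : s.M 1 = 2 ^ (n / 4) := by rw [hs, sys3_M]; simp
    have hM2 : s.M 2 = 2 ^ (n / 4) := by rw [hs, sys3_M]; simp
    have hM3 : s.M 3 = 2 ^ (n - 3 * (n / 4)) := by rw [hs, sys3_M]; simp
    have ha : 1 ≤ 2 ^ (n / 4) := Nat.one_le_two_pow
    have hb : 2 ^ (n / 4) ≤ 2 ^ (n - 3 * (n / 4)) := Nat.pow_le_pow_right (by norm_num) (by omega)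
    have hab : 2 ^ (n - 2 * (n / 4)) = 2 ^ (n / 4) * 2 ^ (n - 3 * (n / 4)) := by
      rw [← pow_add]; congr 1; omega
    rw [hab]
    have hbound : ∀ l < 4, (if s.D vx l = 0 then 1 else (T p l).card) ≤
        if l = p.1 ∨ l = p.2 then 15872 else s.M l := by
      intro l hl
      have hD : s.D vx l = 1 := by
        have := sys3_D hn vx ⟨l, hl⟩
        rw [Dz_vx] at this
        exact this
      rw [if_neg (by rw [hD]; norm_num)]
      simp only [T]
      split_ifs with h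
      · exact (s.card_badSet 15 l).trans (by norm_num)
      · rw [card_range]
    refine (prod_le_prod' (fun l hl => hbound l (mem_range.mp hl))).trans ?_
    simp only [prod_range_succ, prod_range_zero, one_mul, hM0, hM1, hM2, hM3]
    set a := 2 ^ (n / 4)
    set b := 2 ^ (n - 3 * (n / 4))
    have haab : a * a ≤ a * b := Nat.mul_le_mul_left _ hb
    obtain ⟨i, j⟩ := p
    simp only at hp1 hp2 hp3 ⊢
    interval_cases i <;> interval_cases j <;> first | exact absurd rfl hp3 | (norm_num; nlinarith)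
  · rw [sum_const, smul_eq_mul]
    refine Nat.mul_le_mul_right _ ?_
    refine (card_filter_le _ _).trans ?_
    rw [card_product, card_range]

/-- The upper bound for `k = 3`. -/
theorem upper (n : ℕ) (hn : 52 ≤ n) : minSize n 3 ≤
    (8 + 16 * 15872 ^ 2) * 2 ^ (n - 2 * (n / 4)) := by
  have hvx : ∀ i < (sys3 n hn).L, (sys3 n hn).D vx i = 1 := by
    intro i hi
    have hi' : i < 4 := hi
    have := sys3_D hn vx ⟨i, hi'⟩
    rw [Dz_vx] at this
    exact this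
  obtain ⟨A, hA, hsub⟩ := (sys3 n hn).assemble vx hvx (good (sys3 n hn)) (cubeFree hn)
  refine (minSize_le hA).trans ((Set.ncard_le_ncard hsub (Set.toFinite _)).trans
    ((Set.ncard_union_le _ _).trans ?_))
  have h1 := card_A0 hn
  have h2 := card_Ex hn
  linarith

end Three

theorem lower_real (n k : ℕ) (hk : 2 ≤ k) (hn : 1 ≤ n) :
    1 / 3 * Real.sqrt (2 ^ n) ≤ minSize n k := by
  obtain ⟨A, hA, hc⟩ := exists_minSize n k (by omega)
  have h := lower hk hA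
  rw [hc] at h
  set a := minSize n k
  have h2 : 2 ^ 1 ≤ 2 ^ n := Nat.pow_le_pow_right (by norm_num) hn
  have ha : 1 ≤ a := by
    by_contra h0
    have : a = 0 := by omega
    rw [this] at h
    norm_num at h
    omega
  have h3 : 2 ^ n ≤ 9 * a ^ 2 := by nlinarith
  have h4 : ((2 : ℝ) ^ n) ≤ (3 * a) ^ 2 := by
    have : ((2 ^ n : ℕ) : ℝ) ≤ ((9 * a ^ 2 : ℕ) : ℝ) := by exact_mod_cast h3
    push_cast at this
    linarith
  have h5 : Real.sqrt (2 ^ n) ≤ 3 * a := Real.sqrt_le_iff.mpr ⟨by positivity, h4⟩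
  linarith

/-- The order of magnitude of `s(n,3)`. -/
theorem three_order : ∃ c C : ℝ, 0 < c ∧ 0 < C ∧ ∀ n : ℕ, 1 ≤ n →
    c * Real.sqrt (2 ^ n) ≤ minSize n 3 ∧ (minSize n 3 : ℝ) ≤ C * Real.sqrt (2 ^ n) := by
  refine ⟨1 / 3, (8 + 16 * 15872 ^ 2) * 3 + 2 ^ 52, by norm_num, by norm_num, fun n hn => ?_⟩
  refine ⟨lower_real n 3 (by norm_num) hn, ?_⟩
  have h1 : (1 : ℝ) ≤ Real.sqrt (2 ^ n) := by
    rw [Real.one_le_sqrt]
    exact one_le_pow₀ (by norm_num)
  rcases le_or_gt 52 n with h | h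
  · have h2 : (minSize n 3 : ℝ) ≤ (8 + 16 * 15872 ^ 2) * 2 ^ (n - 2 * (n / 4)) := by
      exact_mod_cast Three.upper n h
    have h3 : (2 : ℝ) ^ (n - 2 * (n / 4)) / 3 ≤ Real.sqrt (2 ^ n) := by
      refine Real.le_sqrt_of_sq_le ?_
      have h4 : ((2 : ℝ) ^ (n - 2 * (n / 4))) ^ 2 ≤ 2 ^ (n + 3) := by
        rw [← pow_mul]
        exact pow_le_pow_right₀ (by norm_num) (by omega)
      rw [pow_add] at h4
      rw [div_pow]
      have h5 : (0 : ℝ) < 2 ^ n := by positivity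
      linarith
    nlinarith
  · have h2 : (minSize n 3 : ℝ) ≤ 2 ^ n := by exact_mod_cast minSize_le_pow n 3 (by norm_num)
    have h3 : (2 : ℝ) ^ n ≤ 2 ^ 52 := pow_le_pow_right₀ (by norm_num) h.le
    nlinarith

end Pool.Agent.H38.CF
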